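import Mathlib
import Pool.Agent.Lib.MP_87489e_co.BusMain
import Pool.Agent.Lib.MP_87489e_co.Simplex

set_option autoImplicit false

namespace Pool.Agent.Lib.MP_87489e_co.Ord

open MeasureTheory Set Pointwise
open Pool.Agent.Lib.MP_87489e_co

/-- the covariogram of `K` -/
noncomputable def cov {n : ℕ} (K : Set (Fin n → ℝ)) (q : Fin n → ℝ) : ENNReal :=
  volume (K ∩ (q +ᵥ K))

/-- the model lower bound for the covariogram along a ray -/
noncomputable def gs (n : ℕ) (V a τ t : ℝ) : ℝ :=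
  if t ≤ τ then V - a * t else (a / n) * (1 - t) ^ n / (1 - τ) ^ (n - 1)

/-- the lower bound of a ray integral, `n^n (V+a)^(n+1) / (C(2n,n) (n+1)^(n+1) a^n)` -/
noncomputable def low (n : ℕ) (V a : ℝ) : ℝ :=
  (n : ℝ) ^ n * (V + a) ^ (n + 1) / ((n.centralBinom : ℝ) * ((n : ℝ) + 1) ^ (n + 1) * a ^ n)

/-- comparison of integrals through polar coordinates -/
def StPolar : Prop := ∀ (n : ℕ), 1 ≤ n → ∀ f h : (Fin n → ℝ) → ENNReal, Measurable f → Measurable h →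
  (∀ u : Fin n → ℝ, ‖u‖ = 1 →
    ∫⁻ r in Ioi (0 : ℝ), f (r • u) * ENNReal.ofReal (r ^ (n - 1)) ≤
      ∫⁻ r in Ioi (0 : ℝ), h (r • u) * ENNReal.ofReal (r ^ (n - 1))) →
  ∫⁻ x, f x ≤ ∫⁻ x, h x

/-- integral and measurability of the covariogram -/
def StCov : Prop := ∀ (n : ℕ) (K : Set (Fin n → ℝ)), IsCompact K →
  Measurable (cov K) ∧ ∫⁻ q, cov K q = volume K * volume K

/-- union bound: `vol (K ∩ (K + t p)) ≥ V - t (vol conv (K ∪ (K + p)) - V)` -/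
def StUnion : Prop := ∀ (n : ℕ) (K : Set (Fin n → ℝ)), 1 ≤ n → IsCompact K → Convex ℝ K →
  ∀ (p : Fin n → ℝ) (t : ℝ), 0 ≤ t → t ≤ 1 →
    (volume K).toReal - t * ((volume (convexHull ℝ (K ∪ (p +ᵥ K)))).toReal - (volume K).toReal) ≤
      (cov K (t • p)).toReal

/-- homothety bound -/
def StHom : Prop := ∀ (n : ℕ) (K : Set (Fin n → ℝ)), IsCompact K → Convex ℝ K →
  ∀ (p : Fin n → ℝ), p ∈ K - K → ∀ s t : ℝ, 0 ≤ s → s ≤ t → t ≤ 1 → s < 1 →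
    ((1 - t) / (1 - s)) ^ n * (cov K (s • p)).toReal ≤ (cov K (t • p)).toReal

/-- the beta integral -/
def StBeta : Prop := ∀ k m : ℕ,
  ∫ x in (0:ℝ)..1, x ^ k * (1 - x) ^ m = (k.factorial * m.factorial : ℝ) / (k + m + 1).factorial

/-- the one-dimensional estimate -/
def StModel : Prop := ∀ (n : ℕ) (V a τ : ℝ), 2 ≤ n → 0 < a → 0 < V → 0 ≤ τ → τ ≤ 1 →
  (n : ℝ) * V = a * (1 + ((n : ℝ) - 1) * τ) →
  low n V a ≤ ∫ t in (0:ℝ)..1, (n : ℝ) * t ^ (n - 1) * gs n V a τ t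

/-- monotonicity of `low` -/
def StMono : Prop := ∀ (n : ℕ) (V a b : ℝ), 1 ≤ n → 0 < V → 0 < a → a ≤ b → b ≤ n * V →
  low n V b ≤ low n V a

/-- the covariogram dominates the model on `[0,1]` for boundary directions -/
def StRay : Prop := ∀ (n : ℕ) (K : Set (Fin n → ℝ)), 2 ≤ n → IsCompact K → Convex ℝ K →
  (interior K).Nonempty → ∀ p : Fin n → ℝ, p ∈ K - K → (∀ r : ℝ, 1 < r → r • p ∉ K - K) →
  ∃ a τ : ℝ, 0 < a ∧ 0 ≤ τ ∧ τ ≤ 1 ∧
    (n : ℝ) * (volume K).toReal = a * (1 + ((n : ℝ) - 1) * τ) ∧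
    (volume K).toReal + a ≤ (supHull K).toReal ∧
    ∀ t : ℝ, 0 ≤ t → t ≤ 1 → gs n (volume K).toReal a τ t ≤ (cov K (t • p)).toReal

/-- radial function of the difference body -/
def StRadial : Prop := ∀ (n : ℕ) (K : Set (Fin n → ℝ)), IsCompact K → Convex ℝ K →
  (interior K).Nonempty → ∀ u : Fin n → ℝ, u ≠ 0 →
  ∃ ρ : ℝ, 0 < ρ ∧ ∀ r : ℝ, 0 ≤ r → (r • u ∈ K - K ↔ r ≤ ρ)

/-- main inequality -/
def StMain : Prop := ∀ (n : ℕ) (K : Set (Fin n → ℝ)), 2 ≤ n → IsCompact K → Convex ℝ K →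
  (interior K).Nonempty →
  (supHull K).toReal ≤ (n + 1) * (volume K).toReal ∧
  (volume (K - K)).toReal * low n (volume K).toReal ((supHull K).toReal - (volume K).toReal) ≤
    (volume K).toReal ^ 2

/-- the simplex: covariogram -/
def StSimplexCov : Prop := ∀ (n : ℕ) (q : Fin n → ℝ), q ∈ Tn n - Tn n → ∀ t : ℝ, 0 ≤ t → t ≤ 1 →
  (∀ r : ℝ, 1 < r → r • q ∉ Tn n - Tn n) →
  cov (Tn n) (t • q) ≤ ENNReal.ofReal ((1 - t) ^ n) * volume (Tn n)

/-- the simplex: volume of the difference body -/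
def StSimplexDiff : Prop := ∀ n : ℕ, 1 ≤ n →
  (n.centralBinom : ENNReal) * volume (Tn n) ≤ volume (Tn n - Tn n)

end Pool.Agent.Lib.MP_87489e_co.Ord
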