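import Mathlib
import Pool.Agent.Lib.MP_87489e_co.Ord.Stmts

set_option autoImplicit false

namespace Pool.Agent.Lib.MP_87489e_co.Ord

open MeasureTheory Set Pointwise
open Pool.Agent.Lib.MP_87489e_co
open scoped Topology

theorem cov_boundary {n : ℕ} {K : Set (Fin n → ℝ)} (hKx : Convex ℝ K)
    {p : Fin n → ℝ} (hp : ∀ r : ℝ, 1 < r → r • p ∉ K - K) : cov K p = 0 := by
  have hconv : Convex ℝ (K ∩ (p +ᵥ K)) := by
    apply hKx.inter
    have := hKx.vadd p
    exact this
  have hint : interior (K ∩ (p +ᵥ K)) = ∅ := by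
    by_contra hne
    obtain ⟨x, hx⟩ := nonempty_iff_ne_empty.mpr hne
    have hxm := interior_subset hx
    obtain ⟨y, hy, hyx⟩ := hxm.2
    have hyx' : p + y = x := hyx
    have hK : K ∩ (p +ᵥ K) ∈ 𝓝 x := mem_interior_iff_mem_nhds.mp hx
    have hcont : Filter.Tendsto (fun e : ℝ => x + e • p) (𝓝 0) (𝓝 x) := by
      have : Continuous (fun e : ℝ => x + e • p) := by fun_prop
      have h := this.tendsto 0
      simpa using h
    have hev := hcont.eventually hK
    have hev2 : ∀ᶠ e : ℝ in 𝓝[>] 0, x + e • p ∈ K ∩ (p +ᵥ K) :=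
      hev.filter_mono nhdsWithin_le_nhds
    obtain ⟨e, he, he0⟩ := (hev2.and self_mem_nhdsWithin).exists
    have he0' : (0:ℝ) < e := he0
    apply hp (1 + e) (by linarith)
    refine ⟨x + e • p, he.1, y, hy, ?_⟩
    simp only
    rw [← hyx']
    module
  have h0 := hconv.addHaar_frontier (volume : Measure (Fin n → ℝ))
  have hsub : K ∩ (p +ᵥ K) ⊆ frontier (K ∩ (p +ᵥ K)) := by
    rw [frontier, hint, Set.sdiff_empty]
    exact subset_closure
  exact measure_mono_null hsub h0

theorem vol_pos {n : ℕ} {K : Set (Fin n → ℝ)} (hKc : IsCompact K) (hKi : (interior K).Nonempty) :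
    0 < (volume K).toReal := by
  apply ENNReal.toReal_pos
  · exact (isOpen_interior.measure_pos volume hKi |>.trans_le (measure_mono interior_subset)).ne'
  · exact hKc.measure_lt_top.ne

theorem supHull_le {n : ℕ} {K : Set (Fin (n + 1) → ℝ)} (hKc : IsCompact K) (hKx : Convex ℝ K) :
    supHull K ≤ ((n + 2 : ℕ) : ENNReal) * volume K := by
  refine iSup_le fun p => iSup_le fun hp => ?_
  obtain ⟨_, ⟨a, ha, rfl⟩, ha1⟩ := hp
  exact hull_le_general hKc hKx p ha (by simpa [add_comm] using ha1)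

theorem supHull_ne_top {n : ℕ} {K : Set (Fin (n + 1) → ℝ)} (hKc : IsCompact K)
    (hKx : Convex ℝ K) : supHull K ≠ ⊤ := by
  have h := supHull_le hKc hKx
  exact ne_top_of_le_ne_top (ENNReal.mul_ne_top (ENNReal.natCast_ne_top _)
    hKc.measure_lt_top.ne) h

theorem stRay (hU : StUnion) (hH : StHom) : StRay := by
  intro n K hn hKc hKx hKi p hp hpb
  obtain ⟨m, rfl⟩ : ∃ m, n = m + 1 := ⟨n - 1, by omega⟩
  set V := (volume K).toReal with hV
  have hVpos : 0 < V := vol_pos hKc hKi
  set H := (volume (convexHull ℝ (K ∪ (p +ᵥ K)))).toReal with hHdef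
  have hpm : ∃ a ∈ K, a + p ∈ K := by
    obtain ⟨b, hb, c, hc, hbc⟩ := hp
    refine ⟨c, hc, ?_⟩
    have : c + p = b := by rw [← hbc]; simp
    rw [this]; exact hb
  obtain ⟨c, hc, hc1⟩ := hpm
  have hle : volume (convexHull ℝ (K ∪ (p +ᵥ K))) ≤ supHull K := by
    refine le_iSup_of_le p (le_iSup_of_le (chord_meets hc hc1) le_rfl)
  have hHle : H ≤ (supHull K).toReal := ENNReal.toReal_mono (supHull_ne_top hKc hKx) hle
  have hup := hull_le_general hKc hKx p hc hc1
  have hHn : H ≤ ((m:ℝ) + 2) * V := by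
    have h1 := ENNReal.toReal_mono (ENNReal.mul_ne_top (ENNReal.natCast_ne_top _)
      hKc.measure_lt_top.ne) hup
    rw [ENNReal.toReal_mul, ENNReal.toReal_natCast] at h1
    push_cast at h1
    exact h1
  set a := H - V with ha
  have hnR : (((m + 1 : ℕ) : ℝ)) = (m:ℝ) + 1 := by push_cast; ring
  have hm1 : (1:ℝ) ≤ m := by
    have : 1 ≤ m := by omega
    exact_mod_cast this
  have haV : V ≤ a := by
    have h1 := hU (m + 1) K (by omega) hKc hKx p 1 zero_le_one le_rfl
    rw [one_smul, cov_boundary hKx hpb] at h1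
    simp only [ENNReal.toReal_zero] at h1
    linarith
  have ha0 : 0 < a := lt_of_lt_of_le hVpos haV
  have han : a ≤ ((m:ℝ) + 1) * V := by
    rw [ha]; linarith
  have hden : 0 < a * m := by positivity
  refine ⟨a, (((m:ℝ) + 1) * V - a) / (a * m), ha0, ?_, ?_, ?_, ?_, ?_⟩
  · apply div_nonneg (by linarith) hden.le
  · rw [div_le_one hden]
    nlinarith
  · rw [hnR]
    have : (m:ℝ) ≠ 0 := by positivity
    field_simp
    ring
  · rw [ha]; linarith
  · intro t ht0 ht1
    set τ := (((m:ℝ) + 1) * V - a) / (a * m) with hτ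
    have hτ0 : 0 ≤ τ := by
      rw [hτ]; apply div_nonneg (by linarith) hden.le
    rw [gs]
    split_ifs with hlt
    · have h1 := hU (m + 1) K (by omega) hKc hKx p t ht0 ht1
      rw [mul_comm a t]
      exact h1
    · have hlt' : τ < t := not_le.mp hlt
      have hτ1 : τ < 1 := lt_of_lt_of_le hlt' ht1
      have h1 := hU (m + 1) K (by omega) hKc hKx p τ hτ0 hτ1.le
      have h2 := hH (m + 1) K hKc hKx p hp τ t hτ0 hlt'.le ht1 hτ1
      have h3 : a / ((m + 1 : ℕ) : ℝ) * (1 - τ) ≤ (cov K (τ • p)).toReal := by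
        refine le_trans (le_of_eq ?_) h1
        change _ = V - τ * a
        have hmτ : a * m * τ = ((m:ℝ) + 1) * V - a := by
          rw [hτ]; field_simp
        rw [hnR]
        field_simp
        nlinarith
      have h4 : (0:ℝ) ≤ ((1 - t) / (1 - τ)) ^ (m + 1) := by
        apply pow_nonneg
        apply div_nonneg (by linarith) (by linarith)
      refine le_trans (le_of_eq ?_) ((mul_le_mul_of_nonneg_left h3 h4).trans h2)
      have h5 : (1 - τ) ≠ 0 := by linarith
      rw [div_pow, Nat.add_sub_cancel, pow_succ (1 - τ) m]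
      field_simp

end Pool.Agent.Lib.MP_87489e_co.Ord
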