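import Mathlib
import Pool.Agent.Lib.MP_87489e_co.Ord.Stmts

set_option autoImplicit false

namespace Pool.Agent.Lib.MP_87489e_co.Ord

/-- the factor in the Busemann bound, as a function of `r = B / V` -/
noncomputable def fac (d : ℕ) (r : ℝ) : ℝ :=
  ((1 + r) / ((d : ℝ) + 1)) ^ (d + 2) * ((d : ℝ) / r) ^ d

/-- weighted mean inequality in polynomial form -/
theorem mean_pow2 (d : ℕ) {l : ℝ} (h0 : 0 < l) :
    l ^ d ≤ ((2 + d * l) / ((d : ℝ) + 2)) ^ (d + 2) := by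
  have hd2 : (0:ℝ) < (d:ℝ) + 2 := by positivity
  have h := Real.geom_mean_le_arith_mean2_weighted (w₁ := 2 / ((d:ℝ) + 2)) (w₂ := d / ((d:ℝ) + 2))
    (p₁ := 1) (p₂ := l) (by positivity) (by positivity) zero_le_one h0.le
    (by field_simp; ring)
  rw [Real.one_rpow, one_mul] at h
  have h2 : (2:ℝ) / (d + 2) * 1 + d / (d + 2) * l = (2 + d * l) / ((d : ℝ) + 2) := by
    field_simp
  rw [h2] at h
  have h3 : (l ^ ((d:ℝ) / (d + 2))) ^ (d + 2) = l ^ d := by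
    rw [← Real.rpow_natCast, ← Real.rpow_mul h0.le]
    push_cast
    rw [div_mul_cancel₀ _ hd2.ne', Real.rpow_natCast]
  rw [← h3]
  exact pow_le_pow_left₀ (Real.rpow_nonneg h0.le _) h _

theorem fac_pos (d : ℕ) (hd : 1 ≤ d) {r : ℝ} (hr : 0 < r) : 0 < fac d r := by
  have : (0:ℝ) < d := by exact_mod_cast hd
  rw [fac]; positivity

/-- monotonicity up to `d/2` -/
theorem fac_anti (d : ℕ) (hd : 1 ≤ d) {r s : ℝ} (hr : 0 < r) (hrs : r ≤ s) (hs : 2 * s ≤ d) :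
    fac d s ≤ fac d r := by
  have hdR : (0:ℝ) < d := by exact_mod_cast hd
  have hs0 : 0 < s := lt_of_lt_of_le hr hrs
  set l := r / s with hl
  have hl0 : 0 < l := by positivity
  have hl1 : l ≤ 1 := by rw [hl, div_le_one hs0]; exact hrs
  have hm := mean_pow2 d hl0
  have hls : l * s = r := by rw [hl]; field_simp
  have hlin : (1 + s) * ((2 + d * l) / ((d : ℝ) + 2)) ≤ 1 + r := by
    rw [mul_div_assoc', div_le_iff₀ (by positivity)]
    nlinarith [mul_nonneg (sub_nonneg.mpr hl1) (sub_nonneg.mpr hs)]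
  have key : (1 + s) ^ (d + 2) * l ^ d ≤ (1 + r) ^ (d + 2) := by
    calc (1 + s) ^ (d + 2) * l ^ d ≤ (1 + s) ^ (d + 2) * ((2 + d * l) / ((d : ℝ) + 2)) ^ (d + 2) := by
          gcongr
      _ = ((1 + s) * ((2 + d * l) / ((d : ℝ) + 2))) ^ (d + 2) := by rw [mul_pow]
      _ ≤ _ := by
        have : 0 ≤ (1 + s) * ((2 + d * l) / ((d : ℝ) + 2)) := by positivity
        gcongr
  have e1 : fac d s = (1 + s) ^ (d + 2) * l ^ d * ((d:ℝ) ^ d / (((d : ℝ) + 1) ^ (d + 2) * r ^ d)) := by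
    rw [fac, hl, div_pow, div_pow, div_pow]
    field_simp
  have e2 : fac d r = (1 + r) ^ (d + 2) * ((d:ℝ) ^ d / (((d : ℝ) + 1) ^ (d + 2) * r ^ d)) := by
    rw [fac, div_pow, div_pow]
    field_simp
  rw [e1, e2]
  gcongr

/-- global lower bound -/
theorem fac_ge (d : ℕ) (hd : 1 ≤ d) {r : ℝ} (hr : 0 < r) :
    (((d : ℝ) + 2) / ((d : ℝ) + 1)) ^ (d + 2) / 4 ≤ fac d r := by
  have hdR : (0:ℝ) < d := by exact_mod_cast hd
  have hm := mean_pow2 d (l := 2 * r / d) (by positivity)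
  have e0 : (2 + (d:ℝ) * (2 * r / d)) / ((d : ℝ) + 2) = 2 * (1 + r) / (d + 2) := by
    field_simp
  rw [e0] at hm
  have hpos : (0:ℝ) < (((d : ℝ) + 2) / ((d : ℝ) + 1)) ^ (d + 2) * (d / (2 * r)) ^ d / 4 / 2 ^ d * 2 ^ d := by
    positivity
  have h2 := mul_le_mul_of_nonneg_left hm hpos.le
  have e1 : (((d : ℝ) + 2) / ((d : ℝ) + 1)) ^ (d + 2) * (d / (2 * r)) ^ d / 4 / 2 ^ d * 2 ^ d *
      (2 * r / d) ^ d = (((d : ℝ) + 2) / ((d : ℝ) + 1)) ^ (d + 2) / 4 := by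
    rw [div_mul_cancel₀ _ (by positivity : (2:ℝ) ^ d ≠ 0)]
    have : (d / (2 * r)) ^ d * (2 * r / (d:ℝ)) ^ d = 1 := by
      rw [← mul_pow]
      have : (d:ℝ) / (2 * r) * (2 * r / d) = 1 := by field_simp
      rw [this, one_pow]
    calc _ = (((d : ℝ) + 2) / ((d : ℝ) + 1)) ^ (d + 2) / 4 * ((d / (2 * r)) ^ d * (2 * r / (d:ℝ)) ^ d) := by ring
      _ = _ := by rw [this, mul_one]
  have e2 : (((d : ℝ) + 2) / ((d : ℝ) + 1)) ^ (d + 2) * (d / (2 * r)) ^ d / 4 / 2 ^ d * 2 ^ d *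
      (2 * (1 + r) / (d + 2)) ^ (d + 2) = fac d r := by
    rw [div_mul_cancel₀ _ (by positivity : (2:ℝ) ^ d ≠ 0), fac]
    rw [div_pow, div_pow, div_pow, div_pow, div_pow, mul_pow, mul_pow, pow_add 2 d 2]
    field_simp
    norm_num
  rw [e1, e2] at h2
  exact h2

theorem exp_le (d : ℕ) : Real.exp 1 ≤ (((d : ℝ) + 2) / ((d : ℝ) + 1)) ^ (d + 2) := by
  have h := Real.add_one_le_exp (-(1 / ((d:ℝ) + 2)))
  have e : -(1 / ((d:ℝ) + 2)) + 1 = ((d:ℝ) + 1) / (d + 2) := by field_simp; ring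
  rw [e] at h
  have h2 := pow_le_pow_left₀ (by positivity) h (d + 2)
  rw [← Real.exp_nat_mul] at h2
  have e2 : ((d + 2 : ℕ) : ℝ) * (-(1 / ((d:ℝ) + 2))) = -1 := by push_cast; field_simp
  rw [e2, Real.exp_neg] at h2
  have h3 : (0:ℝ) < (((d : ℝ) + 1) / ((d : ℝ) + 2)) ^ (d + 2) := by positivity
  have h4 := inv_anti₀ h3 h2
  rw [inv_inv, ← inv_pow, inv_div] at h4
  exact h4

/-- five terms of the binomial expansion -/
theorem binom_five (m : ℕ) (hm : 4 ≤ m) {x : ℝ} (hx : 0 ≤ x) :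
    1 + m * x + m * (m - 1) / 2 * x ^ 2 + m * (m - 1) * (m - 2) / 6 * x ^ 3 +
      m * (m - 1) * (m - 2) * (m - 3) / 24 * x ^ 4 ≤ (1 + x) ^ m := by
  induction m, hm using Nat.le_induction with
  | base => norm_num; nlinarith [sq_nonneg x]
  | succ m hm ih =>
    rw [pow_succ]
    have hmR : (4:ℝ) ≤ m := by exact_mod_cast hm
    have h1 := mul_le_mul_of_nonneg_right ih (by linarith : (0:ℝ) ≤ 1 + x)
    refine le_trans ?_ h1
    have h2 : 0 ≤ (m:ℝ) * (m - 1) * (m - 2) * (m - 3) / 24 * x ^ 5 := by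
      have a1 : (0:ℝ) ≤ m - 1 := by linarith
      have a2 : (0:ℝ) ≤ m - 2 := by linarith
      have a3 : (0:ℝ) ≤ m - 3 := by linarith
      positivity
    push_cast
    nlinarith [h2]

theorem fac_quarter (d : ℕ) (hd : 2 ≤ d) : 1 ≤ fac d (d / 4) := by
  have hdR : (0:ℝ) < d := by
    have : 0 < d := by omega
    exact_mod_cast this
  have h16 : 16 ≤ (((d:ℝ) + 4) / (d + 1)) ^ (d + 2) := by
    have hb := binom_five (d + 2) (by omega) (x := 3 / ((d:ℝ) + 1)) (by positivity)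
    have e : 1 + 3 / ((d:ℝ) + 1) = ((d:ℝ) + 4) / (d + 1) := by field_simp; ring
    rw [e] at hb
    refine le_trans ?_ hb
    obtain ⟨k, rfl⟩ : ∃ k, d = k + 2 := ⟨d - 2, by omega⟩
    push_cast
    have hk : (0:ℝ) ≤ k := Nat.cast_nonneg k
    have hden : (0:ℝ) < (k:ℝ) + 3 := by positivity
    have e2 : (k:ℝ) + 2 + 1 = k + 3 := by ring
    rw [e2]
    rw [← sub_nonneg]
    have e3 : 1 + ((k:ℝ) + 2 + 2) * (3 / (k + 3)) + (k + 2 + 2) * (k + 2 + 2 - 1) / 2 * (3 / (k + 3)) ^ 2 +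
        (k + 2 + 2) * (k + 2 + 2 - 1) * (k + 2 + 2 - 2) / 6 * (3 / (k + 3)) ^ 3 +
        (k + 2 + 2) * (k + 2 + 2 - 1) * (k + 2 + 2 - 2) * (k + 2 + 2 - 3) / 24 * (3 / (k + 3)) ^ 4 - 16 =
        (3 / 8 * k ^ 3 + 33 / 8 * k ^ 2 + 27 / 4 * k) / (k + 3) ^ 3 := by
      field_simp
      ring
    rw [e3]
    positivity
  have e1 : fac d (d / 4) = (((d:ℝ) + 4) / (d + 1)) ^ (d + 2) / 16 := by
    rw [fac]
    have e2 : (1 + (d:ℝ) / 4) / (d + 1) = (((d:ℝ) + 4) / (d + 1)) / 4 := by field_simp; ring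
    have e3 : (d:ℝ) / (d / 4) = 4 := by field_simp
    rw [e2, e3, div_pow _ (4:ℝ), pow_add 4 d 2]
    field_simp
    norm_num
  rw [e1]
  linarith

end Pool.Agent.Lib.MP_87489e_co.Ord
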