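import Mathlib
import Pool.Agent.Lib.MP_87489e_co.Ord.Ray

set_option autoImplicit false

namespace Pool.Agent.Lib.MP_87489e_co.Ord

open MeasureTheory Set Pointwise
open Pool.Agent.Lib.MP_87489e_co
open scoped Topology

/-- radial integral of a multiple of an interval indicator -/
theorem radial_const (n : ℕ) (hn : 1 ≤ n) {ρ : ℝ} (hρ : 0 < ρ) (c : ENNReal) :
    ∫⁻ r in Ioi (0:ℝ), ((Iic ρ).indicator (fun _ => c) r) * ENNReal.ofReal (r ^ (n - 1)) =
      c * ENNReal.ofReal (ρ ^ n / n) := by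
  have h1 : ∀ r : ℝ, ((Iic ρ).indicator (fun _ => c) r) * ENNReal.ofReal (r ^ (n - 1)) =
      (Iic ρ).indicator (fun r => c * ENNReal.ofReal (r ^ (n - 1))) r := by
    intro r
    by_cases hr : r ∈ Iic ρ
    · rw [indicator_of_mem hr, indicator_of_mem hr]
    · rw [indicator_of_notMem hr, indicator_of_notMem hr, zero_mul]
  simp_rw [h1]
  rw [setLIntegral_indicator measurableSet_Iic, lintegral_const_mul _ (by fun_prop)]
  congr 1
  have h2 : Iic ρ ∩ Ioi (0:ℝ) = Ioc 0 ρ := by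
    ext x; simp [and_comm]
  rw [h2, ← ofReal_integral_eq_lintegral_ofReal]
  · rw [← intervalIntegral.integral_of_le hρ.le, integral_pow]
    congr 1
    have : ((n - 1 : ℕ) : ℝ) + 1 = n := by
      have := Nat.sub_add_cancel hn
      exact_mod_cast this
    rw [this, Nat.sub_add_cancel hn, zero_pow (by omega), sub_zero]
  · exact (continuous_pow _).integrableOn_Ioc
  · refine (ae_restrict_iff' measurableSet_Ioc).mpr (Filter.Eventually.of_forall ?_)
    intro x hx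
    exact pow_nonneg hx.1.le _

/-- radial integral, rescaled -/
theorem radial_scale (n : ℕ) (hn : 1 ≤ n) {ρ : ℝ} (hρ : 0 < ρ) (φ : ℝ → ℝ)
    (hφ0 : ∀ t ∈ Icc (0:ℝ) 1, 0 ≤ φ t)
    (hφi : IntervalIntegrable (fun t => (n:ℝ) * t ^ (n - 1) * φ t) volume 0 1) :
    ∫⁻ r in Ioc (0:ℝ) ρ, ENNReal.ofReal (φ (r / ρ)) * ENNReal.ofReal (r ^ (n - 1)) =
      ENNReal.ofReal (ρ ^ n / n * ∫ t in (0:ℝ)..1, (n:ℝ) * t ^ (n - 1) * φ t) := by
  have hnR : (0:ℝ) < n := by exact_mod_cast hn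
  have hsub := intervalIntegral.integral_comp_div (a := 0) (b := ρ)
    (fun t => (n:ℝ) * t ^ (n - 1) * φ t) hρ.ne'
  rw [zero_div, div_self hρ.ne'] at hsub
  have hint : IntervalIntegrable (fun r => (n:ℝ) * (r / ρ) ^ (n - 1) * φ (r / ρ)) volume 0 ρ := by
    have h := IntervalIntegrable.comp_mul_right (c := ρ⁻¹) hφi
    have e1 : (0:ℝ) / ρ⁻¹ = 0 := by simp
    have e2 : (1:ℝ) / ρ⁻¹ = ρ := by simp
    rw [e1, e2] at h
    simpa only [div_eq_mul_inv] using h
  have hpt : ∀ r : ℝ, ρ ^ n / n * (ρ⁻¹ * ((n:ℝ) * (r / ρ) ^ (n - 1) * φ (r / ρ))) =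
      φ (r / ρ) * r ^ (n - 1) := by
    intro r
    obtain ⟨m, rfl⟩ : ∃ m, n = m + 1 := ⟨n - 1, by omega⟩
    rw [Nat.add_sub_cancel, div_pow, pow_succ]
    field_simp
  have hval : ρ ^ n / n * ∫ t in (0:ℝ)..1, (n:ℝ) * t ^ (n - 1) * φ t =
      ∫ r in (0:ℝ)..ρ, φ (r / ρ) * r ^ (n - 1) := by
    rw [smul_eq_mul] at hsub
    have e : ∫ t in (0:ℝ)..1, (n:ℝ) * t ^ (n - 1) * φ t =
        ρ⁻¹ * ∫ r in (0:ℝ)..ρ, (n:ℝ) * (r / ρ) ^ (n - 1) * φ (r / ρ) := by
      rw [hsub]; field_simp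
    rw [e, ← intervalIntegral.integral_const_mul, ← intervalIntegral.integral_const_mul]
    apply intervalIntegral.integral_congr
    intro r _
    exact hpt r
  rw [hval, intervalIntegral.integral_of_le hρ.le, ofReal_integral_eq_lintegral_ofReal]
  · apply setLIntegral_congr_fun measurableSet_Ioc
    intro r hr
    simp only
    rw [ENNReal.ofReal_mul (hφ0 _ ⟨by positivity [hr.1.le], (div_le_one hρ).mpr hr.2⟩)]
  · have h2 : IntervalIntegrable (fun r => φ (r / ρ) * r ^ (n - 1)) volume 0 ρ := by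
      have h3 := (hint.const_mul (ρ⁻¹)).const_mul (ρ ^ n / n)
      refine h3.congr ?_
      intro r _
      exact hpt r
    exact (intervalIntegrable_iff_integrableOn_Ioc_of_le hρ.le).mp h2
  · refine (ae_restrict_iff' measurableSet_Ioc).mpr (Filter.Eventually.of_forall ?_)
    intro r hr
    exact mul_nonneg (hφ0 _ ⟨by have := hr.1.le; positivity, (div_le_one hρ).mpr hr.2⟩)
      (pow_nonneg hr.1.le _)

theorem gs_measurable (n : ℕ) (V a τ : ℝ) : Measurable (gs n V a τ) := by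
  unfold gs
  apply Measurable.ite measurableSet_Iic
  · fun_prop
  · fun_prop

theorem gs_nonneg {n : ℕ} (hn : 1 ≤ n) {V a τ : ℝ} (ha : 0 < a) (hτ1 : τ ≤ 1)
    (hV : (n : ℝ) * V = a * (1 + ((n : ℝ) - 1) * τ)) {t : ℝ} (ht : t ∈ Icc (0:ℝ) 1) :
    0 ≤ gs n V a τ t := by
  have hnR : (0:ℝ) < n := by exact_mod_cast hn
  rw [gs]
  split_ifs with h
  · have h1 : V - a * t ≥ V - a * τ := by nlinarith
    have h2 : (n:ℝ) * (V - a * τ) = a * (1 - τ) := by linear_combination hV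
    have h3 : 0 ≤ (n:ℝ) * (V - a * τ) := by
      rw [h2]; exact mul_nonneg ha.le (by linarith)
    have h4 := nonneg_of_mul_nonneg_right h3 hnR
    linarith
  · have h1 : 0 ≤ 1 - t := by linarith [ht.2]
    have h2 : 0 ≤ 1 - τ := by linarith
    positivity

theorem gs_bound {n : ℕ} {V a τ : ℝ} (ha : 0 < a) (hV : 0 < V) (hτ1 : τ ≤ 1)
    {t : ℝ} (ht : t ∈ Icc (0:ℝ) 1) :
    gs n V a τ t ≤ V + a / n * (1 / (1 - τ) ^ (n - 1)) := by
  have h2 : 0 ≤ 1 - τ := by linarith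
  have h3 : 0 ≤ a / n * (1 / (1 - τ) ^ (n - 1)) := by positivity
  rw [gs]
  split_ifs with h
  · have : 0 ≤ a * t := mul_nonneg ha.le ht.1
    linarith
  · have h1 : (1 - t) ^ n ≤ 1 := pow_le_one₀ (by linarith [ht.2]) (by linarith [ht.1])
    have h4 : a / n * (1 - t) ^ n / (1 - τ) ^ (n - 1) ≤ a / n * (1 / (1 - τ) ^ (n - 1)) := by
      rw [mul_div_assoc]
      gcongr
    linarith

theorem gs_integrable {n : ℕ} (hn : 1 ≤ n) {V a τ : ℝ} (ha : 0 < a) (hVp : 0 < V) (hτ1 : τ ≤ 1)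
    (hV : (n : ℝ) * V = a * (1 + ((n : ℝ) - 1) * τ)) :
    IntervalIntegrable (fun t => (n:ℝ) * t ^ (n - 1) * gs n V a τ t) volume 0 1 := by
  rw [intervalIntegrable_iff_integrableOn_Ioc_of_le zero_le_one]
  have hm : AEStronglyMeasurable (fun t => (n:ℝ) * t ^ (n - 1) * gs n V a τ t) volume := by
    have h1 := gs_measurable n V a τ
    have : Measurable (fun t => (n:ℝ) * t ^ (n - 1) * gs n V a τ t) := by fun_prop
    exact this.aestronglyMeasurable
  refine Measure.integrableOn_of_bounded (M := (n:ℝ) * (V + a / n * (1 / (1 - τ) ^ (n - 1))))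
    (by simp) hm ?_
  refine (ae_restrict_iff' measurableSet_Ioc).mpr (Filter.Eventually.of_forall ?_)
  intro t ht
  have ht' : t ∈ Icc (0:ℝ) 1 := ⟨ht.1.le, ht.2⟩
  have h0 := gs_nonneg hn ha hτ1 hV ht'
  have h1 := gs_bound (n := n) ha hVp hτ1 ht'
  have h2 : (0:ℝ) ≤ (n:ℝ) * t ^ (n - 1) := by
    have := ht.1.le
    positivity
  rw [Real.norm_of_nonneg (mul_nonneg h2 h0)]
  have h3 : (n:ℝ) * t ^ (n - 1) ≤ n := by
    have : t ^ (n - 1) ≤ 1 := pow_le_one₀ ht.1.le ht.2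
    have hn0 : (0:ℝ) ≤ n := Nat.cast_nonneg n
    nlinarith
  calc (n:ℝ) * t ^ (n - 1) * gs n V a τ t ≤ n * gs n V a τ t := by gcongr
    _ ≤ _ := by gcongr

theorem diff_compact {n : ℕ} {K : Set (Fin n → ℝ)} (hKc : IsCompact K) : IsCompact (K - K) := by
  rw [sub_eq_add_neg]
  exact hKc.add hKc.neg

theorem supHull_real {n : ℕ} (hn : 1 ≤ n) {K : Set (Fin n → ℝ)} (hKc : IsCompact K)
    (hKx : Convex ℝ K) : (supHull K).toReal ≤ ((n : ℝ) + 1) * (volume K).toReal := by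
  obtain ⟨m, rfl⟩ : ∃ m, n = m + 1 := ⟨n - 1, by omega⟩
  have h1 := ENNReal.toReal_mono (ENNReal.mul_ne_top (ENNReal.natCast_ne_top _)
    hKc.measure_lt_top.ne) (supHull_le hKc hKx)
  rw [ENNReal.toReal_mul, ENNReal.toReal_natCast] at h1
  push_cast at h1 ⊢
  linarith

theorem stMain (hP : StPolar) (hC : StCov) (hR : StRay) (hρ : StRadial) (hM : StModel)
    (hmono : StMono) : StMain := by
  intro n K hn hKc hKx hKi
  have hn1 : 1 ≤ n := by omega
  have hVp := vol_pos hKc hKi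
  have hVtop : volume K ≠ ⊤ := hKc.measure_lt_top.ne
  have hS := supHull_real hn1 hKc hKx
  refine ⟨hS, ?_⟩
  set V := (volume K).toReal with hV
  set S := (supHull K).toReal with hSd
  have hnR : (0:ℝ) < n := by exact_mod_cast hn1
  set L := low n V (S - V) with hL
  have hDc := diff_compact hKc
  -- pointwise comparison of ray integrals
  have hkey : ∀ u : Fin n → ℝ, ‖u‖ = 1 →
      ∫⁻ r in Ioi (0 : ℝ), ((K - K).indicator (fun _ => ENNReal.ofReal L)) (r • u) *
        ENNReal.ofReal (r ^ (n - 1)) ≤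
      ∫⁻ r in Ioi (0 : ℝ), cov K (r • u) * ENNReal.ofReal (r ^ (n - 1)) := by
    intro u hu
    have hu0 : u ≠ 0 := by
      intro h; rw [h, norm_zero] at hu; exact zero_ne_one hu
    obtain ⟨ρ, hρ0, hρ1⟩ := hρ n K hKc hKx hKi u hu0
    have hp : ρ • u ∈ K - K := (hρ1 ρ hρ0.le).mpr le_rfl
    have hpb : ∀ r : ℝ, 1 < r → r • (ρ • u) ∉ K - K := by
      intro r hr
      rw [smul_smul, hρ1 (r * ρ) (by positivity)]
      intro h
      nlinarith
    obtain ⟨a, τ, ha, hτ0, hτ1, hVa, haS, hg⟩ := hR n K hn hKc hKx hKi (ρ • u) hp hpb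
    have hmod := hM n V a τ hn ha hVp hτ0 hτ1 hVa
    have hmo := hmono n V a (S - V) hn1 hVp ha (by linarith) (by linarith)
    have hint := gs_integrable hn1 ha hVp hτ1 hVa
    have e1 : ∫⁻ r in Ioi (0 : ℝ), ((K - K).indicator (fun _ => ENNReal.ofReal L)) (r • u) *
        ENNReal.ofReal (r ^ (n - 1)) = ENNReal.ofReal L * ENNReal.ofReal (ρ ^ n / n) := by
      rw [← radial_const n hn1 hρ0]
      apply setLIntegral_congr_fun measurableSet_Ioi
      intro r hr
      simp only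
      congr 1
      by_cases h : r ≤ ρ
      · rw [indicator_of_mem ((hρ1 r (le_of_lt hr)).mpr h), indicator_of_mem (show r ∈ Iic ρ from h)]
      · rw [indicator_of_notMem (fun h' => h ((hρ1 r (le_of_lt hr)).mp h')),
          indicator_of_notMem (show r ∉ Iic ρ from h)]
    have e2 : ∫⁻ r in Ioc (0:ℝ) ρ, ENNReal.ofReal (gs n V a τ (r / ρ)) *
        ENNReal.ofReal (r ^ (n - 1)) ≤
        ∫⁻ r in Ioi (0 : ℝ), cov K (r • u) * ENNReal.ofReal (r ^ (n - 1)) := by
      refine le_trans ?_ (lintegral_mono_set (Ioc_subset_Ioi_self : Ioc (0:ℝ) ρ ⊆ Ioi 0))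
      apply setLIntegral_mono' measurableSet_Ioc
      intro r hr
      gcongr
      have h1 := hg (r / ρ) (by have := hr.1.le; positivity) ((div_le_one hρ0).mpr hr.2)
      have h2 : (r / ρ) • (ρ • u) = r • u := by
        rw [smul_smul, div_mul_cancel₀ _ hρ0.ne']
      rw [h2] at h1
      refine (ENNReal.ofReal_le_ofReal h1).trans ?_
      exact ENNReal.ofReal_toReal_le
    rw [radial_scale n hn1 hρ0 (gs n V a τ) (fun t ht => gs_nonneg hn1 ha hτ1 hVa ht) hint] at e2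
    rw [e1]
    refine le_trans ?_ e2
    rw [← ENNReal.ofReal_mul' (by positivity)]
    apply ENNReal.ofReal_le_ofReal
    rw [mul_comm]
    have : (0:ℝ) ≤ ρ ^ n / n := by positivity
    apply mul_le_mul_of_nonneg_left _ this
    exact hmo.trans hmod
  obtain ⟨hcm, hci⟩ := hC n K hKc
  have hfin := hP n hn1 _ _ (measurable_const.indicator hDc.measurableSet) hcm hkey
  rw [hci, lintegral_indicator hDc.measurableSet, lintegral_const, Measure.restrict_apply_univ] at hfin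
  have h3 := ENNReal.toReal_mono (ENNReal.mul_ne_top hVtop hVtop) hfin
  rw [ENNReal.toReal_mul, ENNReal.toReal_mul] at h3
  have h4 : L ≤ (ENNReal.ofReal L).toReal := by
    rw [ENNReal.toReal_ofReal']
    exact le_max_left _ _
  have h5 : 0 ≤ (volume (K - K)).toReal := ENNReal.toReal_nonneg
  calc (volume (K - K)).toReal * L ≤ (volume (K - K)).toReal * (ENNReal.ofReal L).toReal := by
        gcongr
    _ = (ENNReal.ofReal L).toReal * (volume (K - K)).toReal := mul_comm _ _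
    _ ≤ V * V := h3
    _ = V ^ 2 := by ring

end Pool.Agent.Lib.MP_87489e_co.Ord
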