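import Mathlib
import Pool.Agent.Lib.MP_87489e_co.Ord.Main

set_option autoImplicit false

namespace Pool.Agent.Lib.MP_87489e_co.Ord

open MeasureTheory Set Pointwise
open Pool.Agent.Lib.MP_87489e_co
open scoped Topology

theorem Tn_interior {n : ℕ} (hn : 1 ≤ n) : (interior (Tn n)).Nonempty := by
  have hnR : (0:ℝ) < n := by exact_mod_cast hn
  have hopen : IsOpen {x : Fin n → ℝ | (∀ i, 0 < x i) ∧ ∑ i, x i < 1} := by
    have h1 : IsOpen {x : Fin n → ℝ | ∀ i, 0 < x i} := by
      have : {x : Fin n → ℝ | ∀ i, 0 < x i} = ⋂ i, {x : Fin n → ℝ | 0 < x i} := by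
        ext x; simp
      rw [this]
      exact isOpen_iInter_of_finite fun i => isOpen_lt continuous_const (continuous_apply i)
    have h2 : IsOpen {x : Fin n → ℝ | ∑ i, x i < 1} :=
      isOpen_lt (by fun_prop) continuous_const
    exact h1.inter h2
  have hsub : {x : Fin n → ℝ | (∀ i, 0 < x i) ∧ ∑ i, x i < 1} ⊆ Tn n := by
    intro x hx
    exact ⟨fun i => (hx.1 i).le, hx.2.le⟩
  refine ⟨fun _ => 1 / (2 * n), ?_⟩
  apply interior_maximal hsub hopen
  refine ⟨fun i => by positivity, ?_⟩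
  simp only [Finset.sum_const, Finset.card_univ, Fintype.card_fin, nsmul_eq_mul]
  have : (n:ℝ) * (1 / (2 * n)) = 1 / 2 := by field_simp
  rw [this]
  norm_num

theorem cov_outside {n : ℕ} {K : Set (Fin n → ℝ)} {q : Fin n → ℝ} (hq : q ∉ K - K) :
    cov K q = 0 := by
  have : K ∩ (q +ᵥ K) = ∅ := by
    rw [eq_empty_iff_forall_notMem]
    rintro x ⟨hx, y, hy, hyx⟩
    apply hq
    refine ⟨x, hx, y, hy, ?_⟩
    have hyx' : q + y = x := hyx
    simp only
    rw [← hyx']
    simp
  rw [cov, this, measure_empty]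

theorem beta_central (hB : StBeta) {n : ℕ} (hn : 1 ≤ n) :
    ∫ t in (0:ℝ)..1, (n:ℝ) * t ^ (n - 1) * (1 - t) ^ n = 1 / (n.centralBinom : ℝ) := by
  have h1 := hB (n - 1) n
  have h2 : ∫ t in (0:ℝ)..1, (n:ℝ) * t ^ (n - 1) * (1 - t) ^ n =
      n * ∫ t in (0:ℝ)..1, t ^ (n - 1) * (1 - t) ^ n := by
    rw [← intervalIntegral.integral_const_mul]
    apply intervalIntegral.integral_congr
    intro t _
    simp only
    ring
  rw [h2, h1]
  obtain ⟨m, rfl⟩ : ∃ m, n = m + 1 := ⟨n - 1, by omega⟩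
  have e1 : m + 1 - 1 + (m + 1) + 1 = 2 * (m + 1) := by omega
  rw [Nat.add_sub_cancel] at e1 ⊢
  rw [e1]
  have h3 := Nat.choose_mul_factorial_mul_factorial (show m + 1 ≤ 2 * (m + 1) by omega)
  have e2 : 2 * (m + 1) - (m + 1) = m + 1 := by omega
  rw [e2] at h3
  have h4 : ((2 * (m + 1)).factorial : ℝ) =
      ((m + 1).centralBinom : ℝ) * (m + 1).factorial * (m + 1).factorial := by
    rw [Nat.centralBinom_eq_two_mul_choose]
    exact_mod_cast h3.symm
  have hc : (0:ℝ) < ((m + 1).centralBinom : ℝ) := by exact_mod_cast Nat.centralBinom_pos _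
  have hf : (0:ℝ) < (m + 1).factorial := by positivity
  have hf2 : ((m + 1).factorial : ℝ) = ((m:ℝ) + 1) * m.factorial := by
    rw [Nat.factorial_succ]; push_cast; ring
  rw [h4]
  have hfm : (0:ℝ) < m.factorial := by positivity
  push_cast
  rw [hf2]
  field_simp

theorem stSimplexDiff (hP : StPolar) (hC : StCov) (hρ : StRadial) (hB : StBeta)
    (hS : StSimplexCov) : StSimplexDiff := by
  intro n hn
  have hTc := Tn_compact n
  have hTx := Tn_convex n
  have hTi := Tn_interior hn
  have hnR : (0:ℝ) < n := by exact_mod_cast hn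
  have hVtop : volume (Tn n) ≠ ⊤ := hTc.measure_lt_top.ne
  have hV0 : volume (Tn n) ≠ 0 := by
    have := vol_pos hTc hTi
    intro h; rw [h] at this; simp at this
  have hDc := diff_compact hTc
  have hN : (0:ℝ) < (n.centralBinom : ℝ) := by exact_mod_cast n.centralBinom_pos
  set V := volume (Tn n) with hV
  have hkey : ∀ u : Fin n → ℝ, ‖u‖ = 1 →
      ∫⁻ r in Ioi (0 : ℝ), cov (Tn n) (r • u) * ENNReal.ofReal (r ^ (n - 1)) ≤
      ∫⁻ r in Ioi (0 : ℝ), ((Tn n - Tn n).indicator
        (fun _ => V * ENNReal.ofReal (1 / (n.centralBinom : ℝ)))) (r • u) *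
        ENNReal.ofReal (r ^ (n - 1)) := by
    intro u hu
    have hu0 : u ≠ 0 := by
      intro h; rw [h, norm_zero] at hu; exact zero_ne_one hu
    obtain ⟨ρ, hρ0, hρ1⟩ := hρ n (Tn n) hTc hTx hTi u hu0
    have hp : ρ • u ∈ Tn n - Tn n := (hρ1 ρ hρ0.le).mpr le_rfl
    have hpb : ∀ r : ℝ, 1 < r → r • (ρ • u) ∉ Tn n - Tn n := by
      intro r hr
      rw [smul_smul, hρ1 (r * ρ) (by positivity)]
      intro h
      nlinarith
    have e1 : ∫⁻ r in Ioi (0 : ℝ), ((Tn n - Tn n).indicator
        (fun _ => V * ENNReal.ofReal (1 / (n.centralBinom : ℝ)))) (r • u) *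
        ENNReal.ofReal (r ^ (n - 1)) =
        V * ENNReal.ofReal (1 / (n.centralBinom : ℝ)) * ENNReal.ofReal (ρ ^ n / n) := by
      rw [← radial_const n hn hρ0]
      apply setLIntegral_congr_fun measurableSet_Ioi
      intro r hr
      simp only
      congr 1
      by_cases h : r ≤ ρ
      · rw [indicator_of_mem ((hρ1 r (le_of_lt hr)).mpr h), indicator_of_mem (show r ∈ Iic ρ from h)]
      · rw [indicator_of_notMem (fun h' => h ((hρ1 r (le_of_lt hr)).mp h')),
          indicator_of_notMem (show r ∉ Iic ρ from h)]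
    have hφi : IntervalIntegrable (fun t : ℝ => (n:ℝ) * t ^ (n - 1) * (1 - t) ^ n) volume 0 1 := by
      apply Continuous.intervalIntegrable
      fun_prop
    have hscale := radial_scale n hn hρ0 (fun t => (1 - t) ^ n)
      (fun t ht => pow_nonneg (by linarith [ht.2]) _) hφi
    rw [beta_central hB hn] at hscale
    have e2 : ∫⁻ r in Ioi (0 : ℝ), cov (Tn n) (r • u) * ENNReal.ofReal (r ^ (n - 1)) ≤
        ∫⁻ r in Ioc (0:ℝ) ρ, V * (ENNReal.ofReal ((1 - r / ρ) ^ n) *
          ENNReal.ofReal (r ^ (n - 1))) := by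
      rw [← lintegral_indicator measurableSet_Ioi, ← lintegral_indicator measurableSet_Ioc]
      apply lintegral_mono
      intro r
      simp only
      by_cases hr : r ∈ Ioi (0:ℝ)
      · rw [indicator_of_mem hr]
        have hr0 : (0:ℝ) < r := hr
        by_cases hr1 : r ≤ ρ
        · rw [indicator_of_mem (show r ∈ Ioc (0:ℝ) ρ from ⟨hr0, hr1⟩), ← mul_assoc]
          gcongr
          have h1 := hS n (ρ • u) hp (r / ρ) (by positivity) ((div_le_one hρ0).mpr hr1) hpb
          have h2 : (r / ρ) • (ρ • u) = r • u := by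
            rw [smul_smul, div_mul_cancel₀ _ hρ0.ne']
          rw [h2] at h1
          rw [mul_comm V]
          exact h1
        · rw [cov_outside (fun h' => hr1 ((hρ1 r hr0.le).mp h')), zero_mul]
          exact zero_le
      · rw [indicator_of_notMem hr]
        exact zero_le
    rw [e1]
    refine e2.trans ?_
    rw [lintegral_const_mul' _ _ hVtop, hscale, mul_assoc]
    gcongr
    rw [← ENNReal.ofReal_mul (by positivity)]
    apply ENNReal.ofReal_le_ofReal
    rw [mul_comm]
  obtain ⟨hcm, hci⟩ := hC n (Tn n) hTc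
  have hfin := hP n hn _ _ hcm (measurable_const.indicator hDc.measurableSet) hkey
  rw [hci, lintegral_indicator hDc.measurableSet, lintegral_const, Measure.restrict_apply_univ,
    mul_assoc] at hfin
  rw [ENNReal.mul_le_mul_iff_right hV0 hVtop] at hfin
  calc (n.centralBinom : ENNReal) * V ≤ (n.centralBinom : ENNReal) *
        (ENNReal.ofReal (1 / (n.centralBinom : ℝ)) * volume (Tn n - Tn n)) := by gcongr
    _ = volume (Tn n - Tn n) := by
      rw [← mul_assoc]
      have : (n.centralBinom : ENNReal) = ENNReal.ofReal (n.centralBinom : ℝ) := by simp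
      rw [this, ← ENNReal.ofReal_mul hN.le, mul_one_div_cancel hN.ne', ENNReal.ofReal_one, one_mul]

end Pool.Agent.Lib.MP_87489e_co.Ord
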