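import Mathlib
import Pool.Agent.Lib.MP_87489e_co.Ord.Ineq
import Pool.Agent.Lib.MP_87489e_co.Ord.SimplexDiff

set_option autoImplicit false

namespace Pool.Agent.Lib.MP_87489e_co.Ord

open MeasureTheory Set Pointwise
open Pool.Agent.Lib.MP_87489e_co

theorem hull_gap (hR : StRay) (hρ : StRadial) {n : ℕ} (hn : 2 ≤ n) {K : Set (Fin n → ℝ)}
    (hKc : IsCompact K) (hKx : Convex ℝ K) (hKi : (interior K).Nonempty) :
    (volume K).toReal < (supHull K).toReal := by
  obtain ⟨m, rfl⟩ : ∃ m, n = m + 1 := ⟨n - 1, by omega⟩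
  have hu : (Pi.single 0 1 : Fin (m + 1) → ℝ) ≠ 0 := by simp
  obtain ⟨ρ, hρ0, hρ1⟩ := hρ (m + 1) K hKc hKx hKi _ hu
  obtain ⟨a, τ, ha, _, _, _, haS, _⟩ := hR (m + 1) K hn hKc hKx hKi (ρ • Pi.single 0 1)
    ((hρ1 ρ hρ0.le).mpr le_rfl) (by
      intro r hr
      rw [smul_smul, hρ1 (r * ρ) (by positivity)]
      intro h
      nlinarith)
  linarith

/-- The main inequality in ratio form. -/
theorem ratio (hR : StRay) (hρ : StRadial) (hM : StMain) {n : ℕ} (hn : 2 ≤ n)
    {K : Set (Fin n → ℝ)} (hKc : IsCompact K) (hKx : Convex ℝ K) (hKi : (interior K).Nonempty) :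
    fac n ((supHull K).toReal / (volume K).toReal - 1) / (catalan n : ℝ) *
      (volume (K - K)).toReal ≤ (supHull K).toReal := by
  have hV := vol_pos hKc hKi
  have hgap := hull_gap hR hρ hn hKc hKx hKi
  obtain ⟨hS, hmain⟩ := hM n K hn hKc hKx hKi
  set V := (volume K).toReal
  set S := (supHull K).toReal
  set D := (volume (K - K)).toReal
  have hnR : (0:ℝ) < n := by
    have : 0 < n := by omega
    exact_mod_cast this
  have hB : 0 < S - V := by linarith
  have hS0 : 0 < S := by linarith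
  have hcat : ((n:ℝ) + 1) * (catalan n : ℝ) = (n.centralBinom : ℝ) := by
    exact_mod_cast succ_mul_catalan_eq_centralBinom n
  have hN : (0:ℝ) < (n.centralBinom : ℝ) := by exact_mod_cast n.centralBinom_pos
  have hc : (0:ℝ) < (catalan n : ℝ) := by
    have h1 : (0:ℝ) < ((n:ℝ) + 1) * (catalan n : ℝ) := by rw [hcat]; exact hN
    exact pos_of_mul_pos_right h1 (by positivity)
  have e : fac n (S / V - 1) / (catalan n : ℝ) = S * low n V (S - V) / V ^ 2 := by
    rw [low, fac, ← hcat]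
    have e1 : 1 + (S / V - 1) = S / V := by ring
    have e2 : S / V - 1 = (S - V) / V := by field_simp
    have e3 : V + (S - V) = S := by ring
    rw [e1, e2, e3, div_div_eq_mul_div, div_pow, div_pow, div_pow, mul_pow]
    field_simp
    ring
  rw [e, div_mul_eq_mul_div, div_le_iff₀ (by positivity)]
  nlinarith [mul_le_mul_of_nonneg_left hmain hS0.le]

/-- ENNReal form: lower bound of the normalized hull volume. -/
theorem bound (hR : StRay) (hρ : StRadial) (hM : StMain) {n : ℕ} (hn : 2 ≤ n)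
    {K : Set (Fin n → ℝ)} (hKc : IsCompact K) (hKx : Convex ℝ K) (hKi : (interior K).Nonempty)
    {f : ℝ} (hf : f ≤ fac n ((supHull K).toReal / (volume K).toReal - 1)) :
    ENNReal.ofReal (2 ^ n / (catalan n : ℝ) * f) * volume ((1 / 2 : ℝ) • (K - K)) ≤ supHull K := by
  have h := ratio hR hρ hM hn hKc hKx hKi
  have hDc := diff_compact hKc
  have hDtop : volume (K - K) ≠ ⊤ := hDc.measure_lt_top.ne
  obtain ⟨m, rfl⟩ : ∃ m, n = m + 1 := ⟨n - 1, by omega⟩
  have hStop := supHull_ne_top hKc hKx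
  have hN : (0:ℝ) < ((m + 1).centralBinom : ℝ) := by exact_mod_cast (m + 1).centralBinom_pos
  have hcat : (((m + 1 : ℕ) : ℝ) + 1) * (catalan (m + 1) : ℝ) = ((m + 1).centralBinom : ℝ) := by
    exact_mod_cast succ_mul_catalan_eq_centralBinom (m + 1)
  have hc : (0:ℝ) < (catalan (m + 1) : ℝ) := by
    have h1 : (0:ℝ) < (((m + 1 : ℕ) : ℝ) + 1) * (catalan (m + 1) : ℝ) := by rw [hcat]; exact hN
    exact pos_of_mul_pos_right h1 (by positivity)
  rw [Measure.addHaar_smul]
  simp only [Module.finrank_fintype_fun_eq_card, Fintype.card_fin]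
  rw [← ENNReal.ofReal_toReal hDtop, ← mul_assoc, ← ENNReal.ofReal_mul' (abs_nonneg _),
    ← ENNReal.ofReal_mul' ENNReal.toReal_nonneg, ← ENNReal.ofReal_toReal hStop]
  apply ENNReal.ofReal_le_ofReal
  refine le_trans ?_ h
  have hp : |(1 / 2 : ℝ) ^ (m + 1)| = (1 / 2) ^ (m + 1) := abs_of_pos (by positivity)
  rw [hp]
  have e : 2 ^ (m + 1) / (catalan (m + 1) : ℝ) * f * (1 / 2) ^ (m + 1) = f / (catalan (m + 1) : ℝ) := by
    rw [one_div, inv_pow]
    field_simp
  rw [e]
  gcongr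

end Pool.Agent.Lib.MP_87489e_co.Ord
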