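import Pool.Agent.Lib.MP_87489e_co.Ord.Stmts

/-!
# The covariogram: measurability and integral
-/

set_option autoImplicit false

namespace Pool.Agent.Lib.MP_87489e_co.Ord

open MeasureTheory Set Pointwise
open Pool.Agent.Lib.MP_87489e_co

namespace Cov

lemma cov_eq {n : ℕ} (K : Set (Fin n → ℝ)) (hK : MeasurableSet K) (q : Fin n → ℝ) :
    cov K q = ∫⁻ x, K.indicator (fun _ => (1 : ENNReal)) x *
      K.indicator (fun _ => (1 : ENNReal)) (x - q) := by
  have h1 : q +ᵥ K = (fun x => x - q) ⁻¹' K := by
    ext x
    rw [Set.mem_vadd_set_iff_neg_vadd_mem, Set.mem_preimage, vadd_eq_add, neg_add_eq_sub]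
  have h2 : MeasurableSet ((fun x : Fin n → ℝ => x - q) ⁻¹' K) :=
    (measurable_id.sub_const q) hK
  unfold cov
  rw [h1, ← lintegral_indicator_one (hK.inter h2)]
  refine lintegral_congr fun x => ?_
  rw [Set.inter_indicator_one]
  rfl

lemma meas {n : ℕ} (K : Set (Fin n → ℝ)) (hK : MeasurableSet K) :
    Measurable (fun p : (Fin n → ℝ) × (Fin n → ℝ) => K.indicator (fun _ => (1 : ENNReal)) p.2 *
      K.indicator (fun _ => (1 : ENNReal)) (p.2 - p.1)) := by
  have h : Measurable (K.indicator (fun _ => (1 : ENNReal))) := measurable_const.indicator hK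
  exact (h.comp measurable_snd).mul (h.comp (measurable_snd.sub measurable_fst))

end Cov

theorem stCov : StCov := by
  intro n K hKc
  have hK : MeasurableSet K := hKc.measurableSet
  have hm := Cov.meas K hK
  constructor
  · have h1 : cov K = fun q => ∫⁻ x, (fun p : (Fin n → ℝ) × (Fin n → ℝ) =>
        K.indicator (fun _ => (1 : ENNReal)) p.2 *
          K.indicator (fun _ => (1 : ENNReal)) (p.2 - p.1)) (q, x) := by
      funext q
      exact Cov.cov_eq K hK q
    rw [h1]
    exact hm.lintegral_prod_right'
  · have h1 : ∫⁻ q, cov K q = ∫⁻ q, ∫⁻ x, K.indicator (fun _ => (1 : ENNReal)) x *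
        K.indicator (fun _ => (1 : ENNReal)) (x - q) :=
      lintegral_congr fun q => Cov.cov_eq K hK q
    rw [h1, lintegral_lintegral_swap (f := fun q x => K.indicator (fun _ => (1 : ENNReal)) x *
        K.indicator (fun _ => (1 : ENNReal)) (x - q)) hm.aemeasurable]
    have h2 : ∀ x : Fin n → ℝ, ∫⁻ q, K.indicator (fun _ => (1 : ENNReal)) x *
        K.indicator (fun _ => (1 : ENNReal)) (x - q) =
          K.indicator (fun _ => (1 : ENNReal)) x * volume K := by
      intro x
      have hmK : Measurable (K.indicator (fun _ => (1 : ENNReal))) := measurable_const.indicator hK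
      have hm2 : Measurable (fun q : Fin n → ℝ => K.indicator (fun _ => (1 : ENNReal)) (x - q)) :=
        hmK.comp (measurable_const.sub measurable_id)
      rw [lintegral_const_mul _ hm2]
      congr 1
      rw [lintegral_sub_left_eq_self (fun y => K.indicator (fun _ => (1 : ENNReal)) y) x]
      exact lintegral_indicator_one hK
    rw [lintegral_congr h2, lintegral_mul_const _ (measurable_const.indicator hK)]
    congr 1
    exact lintegral_indicator_one hK

end Pool.Agent.Lib.MP_87489e_co.Ord
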