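import Mathlib
import Pool.Agent.Lib.MP_87489e_co.Ord.Stmts

set_option autoImplicit false

namespace Pool.Agent.Lib.MP_87489e_co.Ord

open MeasureTheory Set Pointwise
open scoped Topology
open Pool.Agent.Lib.MP_87489e_co

theorem hom_mem_vadd {n : ℕ} {K : Set (Fin n → ℝ)} {q x : Fin n → ℝ} :
    x ∈ q +ᵥ K ↔ x - q ∈ K := by
  rw [mem_vadd_set_iff_neg_vadd_mem, vadd_eq_add]
  constructor
  · intro h
    have : x - q = -q + x := by abel
    rwa [this]
  · intro h
    have : -q + x = x - q := by abel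
    rwa [this]

theorem hom_cov_ne_top {n : ℕ} {K : Set (Fin n → ℝ)} (hK : IsCompact K) (q : Fin n → ℝ) :
    cov K q ≠ ⊤ :=
  ne_top_of_le_ne_top hK.measure_lt_top.ne (measure_mono inter_subset_left)

theorem stHom : StHom := by
  intro n K hKc hK p hp s t hs hst ht hs1
  obtain ⟨b, hb, a, ha, hab⟩ := hp
  have hab' : b - a = p := hab
  set l : ℝ := (t - s) / (1 - s) with hl
  have h1s : 0 < 1 - s := by linarith
  have hl0 : 0 ≤ l := div_nonneg (by linarith) h1s.le
  have hl1 : 1 - l = (1 - t) / (1 - s) := by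
    rw [hl]
    field_simp
    ring
  have hl1' : 0 ≤ 1 - l := by
    rw [hl1]
    exact div_nonneg (by linarith) h1s.le
  have hls : l * (1 - s) = t - s := by
    rw [hl]
    field_simp
  have hsub : AffineMap.homothety b (1 - l) '' (K ∩ ((s • p) +ᵥ K)) ⊆ K ∩ ((t • p) +ᵥ K) := by
    rintro _ ⟨x, ⟨hx1, hx2⟩, rfl⟩
    have hx2' : x - s • p ∈ K := hom_mem_vadd.mp hx2
    refine ⟨?_, ?_⟩
    · have := hK hb hx1 hl0 hl1' (by ring)
      convert this using 1
      rw [AffineMap.homothety_apply, vsub_eq_sub, vadd_eq_add]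
      module
    · rw [hom_mem_vadd]
      have := hK ha hx2' hl0 hl1' (by ring)
      convert this using 1
      rw [AffineMap.homothety_apply, vsub_eq_sub, vadd_eq_add]
      have e1 : a = b - p := by rw [← hab']; abel
      have e2 : t = s + l * (1 - s) := by linarith
      rw [e1, e2]
      module
  have hvol := measure_mono (μ := (volume : Measure (Fin n → ℝ))) hsub
  rw [Measure.addHaar_image_homothety] at hvol
  have h3 := ENNReal.toReal_mono (hom_cov_ne_top hKc (t • p)) hvol
  rw [ENNReal.toReal_mul, Module.finrank_fintype_fun_eq_card, Fintype.card_fin,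
    ENNReal.toReal_ofReal (abs_nonneg _), abs_of_nonneg (pow_nonneg hl1' n), hl1] at h3
  exact h3

theorem stRadial : StRadial := by
  intro n K hKc hK hKi u hu
  have hDc : IsCompact (K - K) := by
    rw [sub_eq_add_neg]
    exact hKc.add hKc.neg
  have hDconv : Convex ℝ (K - K) := by
    rw [sub_eq_add_neg]
    exact hK.add hK.neg
  have hD0 : K - K ∈ 𝓝 (0 : Fin n → ℝ) := diff_nhds hKi
  have h0 : (0 : Fin n → ℝ) ∈ K - K := mem_of_mem_nhds hD0
  set S : Set ℝ := {r : ℝ | 0 ≤ r ∧ r • u ∈ K - K} with hS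
  have hSne : S.Nonempty := ⟨0, le_rfl, by simpa using h0⟩
  have hun : 0 < ‖u‖ := norm_pos_iff.mpr hu
  obtain ⟨M, hM⟩ := hDc.isBounded.exists_norm_le
  have hSb : BddAbove S := by
    refine ⟨M / ‖u‖, ?_⟩
    rintro r ⟨hr0, hr⟩
    have := hM _ hr
    rw [norm_smul, Real.norm_eq_abs, abs_of_nonneg hr0] at this
    rwa [le_div_iff₀ hun]
  have hScl : IsClosed S := by
    have : S = Ici 0 ∩ (fun r : ℝ => r • u) ⁻¹' (K - K) := by
      ext r
      simp [hS]
    rw [this]
    exact isClosed_Ici.inter (hDc.isClosed.preimage (continuous_id.smul continuous_const))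
  have hmem : sSup S ∈ S := hScl.csSup_mem hSne hSb
  refine ⟨sSup S, ?_, ?_⟩
  · have hc : Filter.Tendsto (fun r : ℝ => r • u) (𝓝[>] 0) (𝓝 (0 : Fin n → ℝ)) := by
      have : Filter.Tendsto (fun r : ℝ => r • u) (𝓝 0) (𝓝 ((0 : ℝ) • u)) :=
        (continuous_id.smul continuous_const).tendsto 0
      rw [zero_smul] at this
      exact this.mono_left nhdsWithin_le_nhds
    have h1 := hc hD0
    rw [Filter.mem_map] at h1
    have h2 : ∀ᶠ r in 𝓝[>] (0:ℝ), 0 < r := eventually_mem_nhdsWithin
    obtain ⟨r, hr, hr'⟩ := (h2.and h1).exists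
    exact lt_of_lt_of_le hr (le_csSup hSb ⟨hr.le, hr'⟩)
  · intro r hr
    constructor
    · intro h
      exact le_csSup hSb ⟨hr, h⟩
    · intro h
      rcases eq_or_lt_of_le hr with h' | h'
      · rw [← h', zero_smul]
        exact h0
      · have hpos : 0 < sSup S := lt_of_lt_of_le h' h
        have := hDconv h0 hmem.2 (a := 1 - r / sSup S) (b := r / sSup S)
          (by rw [sub_nonneg]; exact (div_le_one hpos).mpr h) (by positivity) (by ring)
        rwa [smul_zero, zero_add, smul_smul, div_mul_cancel₀ _ hpos.ne'] at this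

end Pool.Agent.Lib.MP_87489e_co.Ord
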