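import Pool.Agent.Lib.MP_87489e_co.Ord.Stmts

set_option autoImplicit false

/-! Project ORD: the beta integral and the one-dimensional estimate. -/

namespace Pool.Agent.Lib.MP_87489e_co.Ord

open MeasureTheory Set

theorem stBeta : StBeta := by
  intro k m
  induction m generalizing k with
  | zero =>
    simp only [pow_zero, mul_one, integral_pow, one_pow, Nat.factorial_zero, Nat.cast_one, add_zero]
    rw [Nat.factorial_succ]
    have hk : ((k.factorial : ℕ) : ℝ) ≠ 0 := by positivity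
    push_cast
    field_simp
    simp
  | succ m ih =>
    have hd : ∀ x ∈ uIcc (0:ℝ) 1, HasDerivAt (fun x : ℝ => x ^ (k + 1) * (1 - x) ^ (m + 1))
        ((k + 1) * (x ^ k * (1 - x) ^ (m + 1)) - (m + 1) * (x ^ (k + 1) * (1 - x) ^ m)) x := by
      intro x _
      have h1 : HasDerivAt (fun x : ℝ => x ^ (k + 1)) (((k + 1 : ℕ) : ℝ) * x ^ k) x := by
        have := hasDerivAt_pow (k + 1) x
        simpa using this
      have h2 : HasDerivAt (fun x : ℝ => (1 - x) ^ (m + 1)) (((m + 1 : ℕ) : ℝ) * (1 - x) ^ m * (-1)) x := by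
        have h3 : HasDerivAt (fun x : ℝ => 1 - x) (-1) x := by
          simpa using (hasDerivAt_id x).const_sub 1
        have := h3.fun_pow (m + 1)
        simpa using this
      have h4 := h1.mul h2
      refine HasDerivAt.congr_deriv h4 ?_
      push_cast
      ring
    have hint : IntervalIntegrable (fun x : ℝ => (k + 1) * (x ^ k * (1 - x) ^ (m + 1)) -
        (m + 1) * (x ^ (k + 1) * (1 - x) ^ m)) volume 0 1 :=
      Continuous.intervalIntegrable (by fun_prop) _ _
    have h := intervalIntegral.integral_eq_sub_of_hasDerivAt hd hint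
    rw [intervalIntegral.integral_sub (Continuous.intervalIntegrable (by fun_prop) _ _)
      (Continuous.intervalIntegrable (by fun_prop) _ _), intervalIntegral.integral_const_mul, intervalIntegral.integral_const_mul,
      ih (k + 1)] at h
    simp only [sub_self, ne_eq, Nat.succ_ne_zero, not_false_eq_true, zero_pow, mul_zero, zero_mul] at h
    have hk : ((k:ℝ) + 1) ≠ 0 := by positivity
    have e1 : ∫ x in (0:ℝ)..1, x ^ k * (1 - x) ^ (m + 1) =
        (m + 1) / (k + 1) * (((k + 1).factorial * m.factorial : ℝ) / (k + 1 + m + 1).factorial) := by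
      field_simp
      field_simp at h
      linarith
    rw [e1, Nat.factorial_succ k, Nat.factorial_succ m, show k + 1 + m + 1 = k + (m + 1) + 1 by ring]
    push_cast
    field_simp

theorem model_tangent (u v : ℝ) (hu : 0 ≤ u) (hv : 0 ≤ v) (k : ℕ) :
    v ^ (k + 1) + (k + 1) * v ^ k * (u - v) ≤ u ^ (k + 1) := by
  induction k with
  | zero => simp
  | succ k ih =>
    have h1 : v ^ (k + 1 + 1) + ((k + 1 : ℕ) + 1) * v ^ (k + 1) * (u - v) =
        (v ^ (k + 1) + (k + 1) * v ^ k * (u - v)) * u - (k + 1) * v ^ k * (u - v) ^ 2 := by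
      push_cast
      ring
    rw [h1]
    have h2 : 0 ≤ (k + 1) * v ^ k * (u - v) ^ 2 := by positivity
    have h3 := mul_le_mul_of_nonneg_right ih hu
    calc _ ≤ (v ^ (k + 1) + (k + 1) * v ^ k * (u - v)) * u := by linarith
      _ ≤ u ^ (k + 1) * u := h3
      _ = _ := by ring

/-- Step B. -/
theorem model_Q (m : ℕ) (τ : ℝ) :
    ∫ x in (0:ℝ)..1, ((m:ℝ) + 1) * (1 - x) ^ m * (τ + (1 - τ) * x) ^ (m + 3) =
      ((m:ℝ) + 3) * (1 - τ) ^ 2 * (∫ x in (0:ℝ)..1, (1 - x) ^ (m + 2) * (τ + (1 - τ) * x) ^ (m + 1)) +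
      τ ^ (m + 3) + ((m:ℝ) + 3) * (1 - τ) * τ ^ (m + 2) / (m + 2) := by
  have hm : ((m:ℝ) + 2) ≠ 0 := by positivity
  have hd : ∀ x ∈ uIcc (0:ℝ) 1, HasDerivAt (fun x : ℝ => -((1 - x) ^ (m + 1) * (τ + (1 - τ) * x) ^ (m + 3)) -
      (((m:ℝ) + 3) * (1 - τ) / (m + 2)) * ((1 - x) ^ (m + 2) * (τ + (1 - τ) * x) ^ (m + 2)))
      (((m:ℝ) + 1) * (1 - x) ^ m * (τ + (1 - τ) * x) ^ (m + 3) -
        ((m:ℝ) + 3) * (1 - τ) ^ 2 * ((1 - x) ^ (m + 2) * (τ + (1 - τ) * x) ^ (m + 1))) x := by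
    intro x _
    have h3 : HasDerivAt (fun x : ℝ => 1 - x) (-1) x := by
      simpa using (hasDerivAt_id x).const_sub 1
    have h5 : HasDerivAt (fun x : ℝ => τ + (1 - τ) * x) (1 - τ) x := by
      simpa using ((hasDerivAt_id x).const_mul (1 - τ)).const_add τ
    have p1 : HasDerivAt (fun x : ℝ => (1 - x) ^ (m + 1)) (((m + 1 : ℕ) : ℝ) * (1 - x) ^ m * (-1)) x := by
      simpa using h3.fun_pow (m + 1)
    have p2 : HasDerivAt (fun x : ℝ => (1 - x) ^ (m + 2)) (((m + 2 : ℕ) : ℝ) * (1 - x) ^ (m + 1) * (-1)) x := by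
      simpa using h3.fun_pow (m + 2)
    have p3 : HasDerivAt (fun x : ℝ => (τ + (1 - τ) * x) ^ (m + 3))
        (((m + 3 : ℕ) : ℝ) * (τ + (1 - τ) * x) ^ (m + 2) * (1 - τ)) x := by
      simpa using h5.fun_pow (m + 3)
    have p4 : HasDerivAt (fun x : ℝ => (τ + (1 - τ) * x) ^ (m + 2))
        (((m + 2 : ℕ) : ℝ) * (τ + (1 - τ) * x) ^ (m + 1) * (1 - τ)) x := by
      simpa using h5.fun_pow (m + 2)
    have h := ((p1.mul p3).neg).sub ((p2.mul p4).const_mul (((m:ℝ) + 3) * (1 - τ) / (m + 2)))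
    refine HasDerivAt.congr_deriv h ?_
    push_cast
    field_simp
    ring
  have hint : IntervalIntegrable (fun x : ℝ => ((m:ℝ) + 1) * (1 - x) ^ m * (τ + (1 - τ) * x) ^ (m + 3) -
        ((m:ℝ) + 3) * (1 - τ) ^ 2 * ((1 - x) ^ (m + 2) * (τ + (1 - τ) * x) ^ (m + 1))) volume 0 1 :=
    Continuous.intervalIntegrable (by fun_prop) _ _
  have h := intervalIntegral.integral_eq_sub_of_hasDerivAt hd hint
  rw [intervalIntegral.integral_sub (Continuous.intervalIntegrable (by fun_prop) _ _)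
      (Continuous.intervalIntegrable (by fun_prop) _ _), intervalIntegral.integral_const_mul] at h
  simp only [sub_self, ne_eq, Nat.succ_ne_zero, not_false_eq_true, zero_pow, mul_zero, zero_mul,
    neg_zero, sub_zero, add_zero, one_pow, one_mul] at h
  have e : ((m:ℝ) + 3) * (1 - τ) / (m + 2) * τ ^ (m + 2) = ((m:ℝ) + 3) * (1 - τ) * τ ^ (m + 2) / (m + 2) := by
    ring
  rw [e] at h
  linarith

theorem model_first (m : ℕ) (V a τ : ℝ) (hτ : 0 ≤ τ) :
    ∫ t in (0:ℝ)..τ, ((m:ℝ) + 2) * t ^ (m + 1) * gs (m + 2) V a τ t =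
      V * τ ^ (m + 2) - a * ((m:ℝ) + 2) * τ ^ (m + 3) / (m + 3) := by
  have e : ∫ t in (0:ℝ)..τ, ((m:ℝ) + 2) * t ^ (m + 1) * gs (m + 2) V a τ t =
      ∫ t in (0:ℝ)..τ, (((m:ℝ) + 2) * V * t ^ (m + 1) - ((m:ℝ) + 2) * a * t ^ (m + 2)) := by
    refine intervalIntegral.integral_congr_ae (Filter.Eventually.of_forall fun t ht => ?_)
    rw [uIoc_of_le hτ] at ht
    simp only [gs]
    rw [if_pos ht.2]
    ring
  rw [e, intervalIntegral.integral_sub (Continuous.intervalIntegrable (by fun_prop) _ _)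
      (Continuous.intervalIntegrable (by fun_prop) _ _), intervalIntegral.integral_const_mul, intervalIntegral.integral_const_mul,
      integral_pow, integral_pow]
  have h1 : ((m:ℝ) + 2) ≠ 0 := by positivity
  have h2 : ((m:ℝ) + 3) ≠ 0 := by positivity
  have h3 : ((m:ℝ) + 1 + 1) ≠ 0 := by positivity
  have h4 : ((m:ℝ) + 2 + 1) ≠ 0 := by positivity
  push_cast
  rw [zero_pow (by omega), zero_pow (by omega)]
  have e3 : (m:ℝ) + 1 + 1 = m + 2 := by ring
  have e4 : (m:ℝ) + 2 + 1 = m + 3 := by ring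
  rw [e3, e4]
  field_simp
  ring

theorem model_second (m : ℕ) (V a τ : ℝ) (hτ1 : τ ≤ 1) :
    ∫ t in τ..(1:ℝ), ((m:ℝ) + 2) * t ^ (m + 1) * gs (m + 2) V a τ t =
      a * (1 - τ) ^ 2 * ∫ x in (0:ℝ)..1, (1 - x) ^ (m + 2) * (τ + (1 - τ) * x) ^ (m + 1) := by
  rcases eq_or_lt_of_le hτ1 with h1 | h1
  · subst h1; simp
  · have hne : (1 - τ) ≠ 0 := by linarith
    have e : ∫ t in τ..(1:ℝ), ((m:ℝ) + 2) * t ^ (m + 1) * gs (m + 2) V a τ t =
        ∫ t in τ..(1:ℝ), (a / (1 - τ) ^ (m + 1)) * (t ^ (m + 1) * (1 - t) ^ (m + 2)) := by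
      refine intervalIntegral.integral_congr_ae (Filter.Eventually.of_forall fun t ht => ?_)
      rw [uIoc_of_le hτ1] at ht
      simp only [gs]
      rw [if_neg (not_le.mpr ht.1)]
      have hm : ((m:ℝ) + 2) ≠ 0 := by positivity
      push_cast
      field_simp
    rw [e]
    have h2 := intervalIntegral.mul_integral_comp_add_mul (a := 0) (b := 1)
      (f := fun t : ℝ => (a / (1 - τ) ^ (m + 1)) * (t ^ (m + 1) * (1 - t) ^ (m + 2))) (1 - τ) τ
    have e5 : τ + (1 - τ) * 0 = τ := by ring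
    have e6 : τ + (1 - τ) * 1 = 1 := by ring
    rw [e5, e6] at h2
    rw [← h2, ← intervalIntegral.integral_const_mul, ← intervalIntegral.integral_const_mul]
    refine intervalIntegral.integral_congr fun x _ => ?_
    have e7 : (1 - (τ + (1 - τ) * x)) = (1 - τ) * (1 - x) := by ring
    rw [e7, mul_pow]
    have e8 : (1 - τ) ^ (m + 2) = (1 - τ) ^ (m + 1) * (1 - τ) := by ring
    rw [e8]
    field_simp

theorem stModel : StModel := by
  intro n V a τ hn ha hV hτ0 hτ1 hrel
  obtain ⟨m, rfl⟩ := Nat.exists_eq_add_of_le' hn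
  push_cast at hrel ⊢
  -- integrability
  have hi1 : IntervalIntegrable (fun t => ((m:ℝ) + 2) * t ^ (m + 1) * gs (m + 2) V a τ t) volume 0 τ := by
    refine (Continuous.intervalIntegrable (u := fun t : ℝ => ((m:ℝ) + 2) * t ^ (m + 1) * (V - a * t))
      (by fun_prop) 0 τ).congr ?_
    rw [uIoc_of_le hτ0]
    intro t ht
    simp only [gs]
    rw [if_pos ht.2]
  have hi2 : IntervalIntegrable (fun t => ((m:ℝ) + 2) * t ^ (m + 1) * gs (m + 2) V a τ t) volume τ 1 := by
    refine (Continuous.intervalIntegrable (u := fun t : ℝ => ((m:ℝ) + 2) * t ^ (m + 1) *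
      ((a / ((m + 2 : ℕ):ℝ)) * (1 - t) ^ (m + 2) / (1 - τ) ^ (m + 2 - 1)))
      (by fun_prop) τ 1).congr ?_
    rw [uIoc_of_le hτ1]
    intro t ht
    simp only [gs]
    rw [if_neg (not_le.mpr ht.1)]
  rw [← intervalIntegral.integral_add_adjacent_intervals hi1 hi2, model_first m V a τ hτ0, model_second m V a τ hτ1]
  have hQ := model_Q m τ
  set J := ∫ x in (0:ℝ)..1, (1 - x) ^ (m + 2) * (τ + (1 - τ) * x) ^ (m + 1) with hJ
  set Q := ∫ x in (0:ℝ)..1, ((m:ℝ) + 1) * (1 - x) ^ m * (τ + (1 - τ) * x) ^ (m + 3) with hQdef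
  have hm2 : ((m:ℝ) + 2) ≠ 0 := by positivity
  have hm3 : ((m:ℝ) + 3) ≠ 0 := by positivity
  have hVe : V = a * (1 + ((m:ℝ) + 1) * τ) / (m + 2) := by
    rw [eq_div_iff hm2]
    linarith
  have htot : V * τ ^ (m + 2) - a * ((m:ℝ) + 2) * τ ^ (m + 3) / (m + 3) + a * (1 - τ) ^ 2 * J =
      a / (m + 3) * Q := by
    rw [hQ, hVe]
    field_simp
    ring
  rw [htot]
  -- lower bound for Q
  set y : ℝ := 1 + τ * (m + 1) / (m + 3) with hy
  have hy0 : 0 < y := by positivity
  have hB1 := stBeta (m + 3) m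
  have hB0 := stBeta (m + 2) m
  have hlow : ∫ x in (0:ℝ)..1, (((m:ℝ) + 1) * (y ^ (m + 3) + (m + 3) * y ^ (m + 2) * (1 - τ - y)) *
      (x ^ (m + 3) * (1 - x) ^ m) +
      ((m:ℝ) + 1) * ((m + 3) * y ^ (m + 2) * τ) * (x ^ (m + 2) * (1 - x) ^ m)) ≤ Q := by
    rw [hQdef]
    refine intervalIntegral.integral_mono_on (by norm_num) (Continuous.intervalIntegrable (by fun_prop) _ _)
      (Continuous.intervalIntegrable (by fun_prop) _ _) fun x hx => ?_
    have hT : 0 ≤ τ + (1 - τ) * x := by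
      have : 0 ≤ (1 - τ) * x := mul_nonneg (by linarith) hx.1
      linarith
    have htan := model_tangent (τ + (1 - τ) * x) (y * x) hT (mul_nonneg hy0.le hx.1) (m + 2)
    have h1 : 0 ≤ ((m:ℝ) + 1) * (1 - x) ^ m := by
      have : 0 ≤ 1 - x := by linarith [hx.2]
      positivity
    have h2 := mul_le_mul_of_nonneg_left htan h1
    refine le_trans (le_of_eq ?_) h2
    push_cast
    rw [mul_pow, mul_pow]
    ring
  rw [intervalIntegral.integral_add (Continuous.intervalIntegrable (by fun_prop) _ _)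
      (Continuous.intervalIntegrable (by fun_prop) _ _), intervalIntegral.integral_const_mul, intervalIntegral.integral_const_mul,
      hB1, hB0] at hlow
  -- central binomial
  have hC : (((m + 2).centralBinom : ℕ) : ℝ) = ((2 * (m + 2)).factorial : ℝ) /
      ((m + 2).factorial * (m + 2).factorial) := by
    rw [Nat.centralBinom, Nat.cast_choose ℝ (by omega), show 2 * (m + 2) - (m + 2) = m + 2 by omega]
  have hf1 : ((m + 3).factorial : ℝ) = (m + 3) * (m + 2).factorial := by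
    rw [Nat.factorial_succ (m + 2)]; push_cast; ring
  have hf2 : ((m + 2).factorial : ℝ) = (m + 2) * ((m + 1) * m.factorial) := by
    rw [Nat.factorial_succ (m + 1), Nat.factorial_succ m]; push_cast; ring
  have hf3 : ((2 * (m + 2)).factorial : ℝ) = (2 * (m + 2)) * (m + 2 + m + 1).factorial := by
    rw [show 2 * (m + 2) = (m + 2 + m + 1) + 1 by ring, Nat.factorial_succ]; push_cast; ring
  have hf4 : m + 3 + m + 1 = 2 * (m + 2) := by ring
  have hfm : (m.factorial : ℝ) ≠ 0 := by positivity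
  have hfL : ((m + 2 + m + 1).factorial : ℝ) ≠ 0 := by positivity
  have hCpos : (0:ℝ) < (m + 2).centralBinom := by exact_mod_cast Nat.centralBinom_pos _
  have b1 : (((m + 3).factorial : ℝ) * m.factorial) / (m + 3 + m + 1).factorial * (m + 1) =
      (m + 3) / ((m + 2) * (m + 2).centralBinom) := by
    rw [hf4, hC, hf1, hf3]
    rw [hf2]
    field_simp
  have b0 : (((m + 2).factorial : ℝ) * m.factorial) / (m + 2 + m + 1).factorial * (m + 1) =
      2 / (m + 2).centralBinom := by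
    rw [hC, hf3]
    rw [hf2]
    field_simp
  set C : ℝ := ((m + 2).centralBinom : ℝ) with hCdef
  have hQlow : y ^ (m + 3) * ((m + 3) / ((m + 2) * C)) ≤ Q := by
    refine le_trans (le_of_eq ?_) hlow
    have e1 : ((m:ℝ) + 1) * (y ^ (m + 3) + (m + 3) * y ^ (m + 2) * (1 - τ - y)) *
        (((m + 3).factorial : ℝ) * m.factorial / (m + 3 + m + 1).factorial) +
        ((m:ℝ) + 1) * ((m + 3) * y ^ (m + 2) * τ) *
        (((m + 2).factorial : ℝ) * m.factorial / (m + 2 + m + 1).factorial) =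
        (y ^ (m + 3) + (m + 3) * y ^ (m + 2) * (1 - τ - y)) *
          ((((m + 3).factorial : ℝ) * m.factorial) / (m + 3 + m + 1).factorial * (m + 1)) +
        ((m + 3) * y ^ (m + 2) * τ) *
          ((((m + 2).factorial : ℝ) * m.factorial) / (m + 2 + m + 1).factorial * (m + 1)) := by ring
    rw [e1, b1, b0]
    have hlin : (1 - τ - y) * ((m + 3) / ((m + 2) * C)) + τ * (2 / C) = 0 := by
      rw [hy]
      field_simp
      ring
    have : (y ^ (m + 3) + (m + 3) * y ^ (m + 2) * (1 - τ - y)) * ((m + 3) / ((m + 2) * C)) +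
        ((m + 3) * y ^ (m + 2) * τ) * (2 / C) = y ^ (m + 3) * ((m + 3) / ((m + 2) * C)) +
        (m + 3) * y ^ (m + 2) * ((1 - τ - y) * ((m + 3) / ((m + 2) * C)) + τ * (2 / C)) := by ring
    rw [this, hlin]
    ring
  have hye : y = ((m:ℝ) + 2) * (V + a) / ((m + 3) * a) := by
    rw [hVe, hy]
    field_simp
    ring
  have hfin : low (m + 2) V a = a / (m + 3) * (y ^ (m + 3) * ((m + 3) / ((m + 2) * C))) := by
    rw [hye]
    unfold low
    rw [← hCdef]
    push_cast
    rw [div_pow, mul_pow, mul_pow]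
    have e3 : (m:ℝ) + 2 + 1 = m + 3 := by ring
    rw [e3, show m + 2 + 1 = m + 3 by ring]
    have hVa : (V + a) ≠ 0 := by positivity
    rw [pow_succ ((m:ℝ) + 2) (m + 2), pow_succ a (m + 2)]
    field_simp
  rw [hfin]
  exact mul_le_mul_of_nonneg_left hQlow (by positivity)

end Pool.Agent.Lib.MP_87489e_co.Ord
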