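import Mathlib
import Pool.Agent.Lib.MP_87489e_co.Ord.Stmts

set_option autoImplicit false

namespace Pool.Agent.Lib.MP_87489e_co.Ord

open MeasureTheory Set Pointwise
open Pool.Agent.Lib.MP_87489e_co

/-- weighted mean inequality in polynomial form -/
theorem mean_pow (n : ℕ) {l : ℝ} (h0 : 0 < l) (h1 : l ≤ 1) :
    l ^ n * ((n : ℝ) + 1) ^ (n + 1) ≤ (1 + n * l) ^ (n + 1) := by
  have hn : (0:ℝ) < (n : ℝ) + 1 := by positivity
  set w : ℝ := (1 + n * l) / (n + 1) with hw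
  have hwl : w = l + (1 - l) / (n + 1) := by
    rw [hw]; field_simp; ring
  have hb := one_add_mul_le_pow (a := (1 - l) / (l * (n + 1))) (by
    have : (0:ℝ) ≤ (1 - l) / (l * (n + 1)) := by
      apply div_nonneg (by linarith) (by positivity)
    linarith) n
  have hq : w / l = 1 + (1 - l) / (l * (n + 1)) := by
    rw [hwl]; field_simp
  have hwpos : 0 < w := by rw [hw]; positivity
  have h2 : 1 ≤ (w / l) ^ n * w := by
    rw [hq]
    have h3 : (1 + (n:ℝ) * ((1 - l) / (l * (n + 1)))) * w ≥ 1 := by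
      have e : (1 + (n:ℝ) * ((1 - l) / (l * (n + 1)))) * w - 1 =
          n * (1 - l) ^ 2 / (l * (n + 1) ^ 2) := by
        rw [hw]; field_simp; ring
      have : 0 ≤ n * (1 - l) ^ 2 / (l * ((n:ℝ) + 1) ^ 2) := by positivity
      linarith
    calc (1:ℝ) ≤ (1 + (n:ℝ) * ((1 - l) / (l * (n + 1)))) * w := h3
      _ ≤ _ := mul_le_mul_of_nonneg_right hb hwpos.le
  have h4 : l ^ n ≤ w ^ (n + 1) := by
    have : l ^ n * ((w / l) ^ n * w) = w ^ (n + 1) := by
      rw [div_pow, pow_succ]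
      field_simp
    rw [← this]
    have hl : 0 < l ^ n := by positivity
    nlinarith
  calc l ^ n * ((n : ℝ) + 1) ^ (n + 1) ≤ w ^ (n + 1) * ((n : ℝ) + 1) ^ (n + 1) := by gcongr
    _ = (1 + n * l) ^ (n + 1) := by
      rw [← mul_pow, hw, div_mul_cancel₀ _ hn.ne']

theorem stMono : StMono := by
  intro n V a b hn hV ha hab hb
  have hb0 : 0 < b := lt_of_lt_of_le ha hab
  have hN : (0:ℝ) < (n.centralBinom : ℝ) := by exact_mod_cast n.centralBinom_pos
  have hn1 : (0:ℝ) < (n : ℝ) + 1 := by positivity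
  rw [low, low]
  set l : ℝ := a / b with hl
  have hl0 : 0 < l := by positivity
  have hl1 : l ≤ 1 := by rw [hl, div_le_one hb0]; exact hab
  have hm := mean_pow n hl0 hl1
  -- (V+b)(1+n l) ≤ (n+1)(V+a)
  have hlin : (V + b) * (1 + n * l) ≤ (n + 1) * (V + a) := by
    have hlb : l * b = a := by rw [hl]; field_simp
    nlinarith [mul_nonneg (sub_nonneg.mpr hl1) (sub_nonneg.mpr hb)]
  have key : (V + b) ^ (n + 1) * a ^ n ≤ (V + a) ^ (n + 1) * b ^ n := by
    have h1 : (V + b) ^ (n + 1) * (l ^ n * ((n : ℝ) + 1) ^ (n + 1)) ≤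
        ((n + 1) * (V + a)) ^ (n + 1) := by
      calc (V + b) ^ (n + 1) * (l ^ n * ((n : ℝ) + 1) ^ (n + 1)) ≤
          (V + b) ^ (n + 1) * (1 + n * l) ^ (n + 1) := by gcongr
        _ = ((V + b) * (1 + n * l)) ^ (n + 1) := by rw [mul_pow]
        _ ≤ _ := by gcongr
    rw [mul_pow] at h1
    have h2 : (V + b) ^ (n + 1) * l ^ n ≤ (V + a) ^ (n + 1) := by
      have h3 : (0:ℝ) < ((n:ℝ) + 1) ^ (n + 1) := by positivity
      apply le_of_mul_le_mul_left _ h3
      linarith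
    have h4 : a ^ n = l ^ n * b ^ n := by
      rw [← mul_pow, hl, div_mul_cancel₀ _ hb0.ne']
    rw [h4, ← mul_assoc]
    gcongr
  rw [div_le_div_iff₀ (by positivity) (by positivity)]
  have h5 : (0:ℝ) ≤ (n:ℝ) ^ n * ((n.centralBinom : ℝ) * ((n : ℝ) + 1) ^ (n + 1)) := by positivity
  have h6 := mul_le_mul_of_nonneg_left key h5
  nlinarith [h6]

end Pool.Agent.Lib.MP_87489e_co.Ord
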