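import Pool.Agent.Lib.MP_87489e_co.Ord.Stmts

set_option autoImplicit false

namespace Pool.Agent.Lib.MP_87489e_co.Ord

open MeasureTheory Set Pointwise

/-- polar coordinates for the Lebesgue measure of `Fin n → ℝ` -/
lemma polar_eq {n : ℕ} (hn : 1 ≤ n) (g : (Fin n → ℝ) → ENNReal) (hg : Measurable g) :
    ∫⁻ x, g x = ∫⁻ u : Metric.sphere (0 : Fin n → ℝ) 1,
      (∫⁻ r in Ioi (0 : ℝ), g (r • (u : Fin n → ℝ)) * ENNReal.ofReal (r ^ (n - 1)))
        ∂(volume : Measure (Fin n → ℝ)).toSphere := by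
  have : Nonempty (Fin n) := ⟨⟨0, hn⟩⟩
  set μ : Measure (Fin n → ℝ) := volume with hμ
  have hmp := μ.measurePreserving_homeomorphUnitSphereProd
  have hdim : Module.finrank ℝ (Fin n → ℝ) = n := by simp
  rw [hdim] at hmp
  have h1 : ∫⁻ x, g x ∂μ = ∫⁻ x : ({(0 : Fin n → ℝ)}ᶜ : Set (Fin n → ℝ)), g x
      ∂(μ.comap (Subtype.val)) := by
    rw [lintegral_subtype_comap (measurableSet_singleton _).compl, restrict_compl_singleton]
  have h2 : ∫⁻ x : ({(0 : Fin n → ℝ)}ᶜ : Set (Fin n → ℝ)), g x ∂(μ.comap (Subtype.val)) =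
      ∫⁻ y : Metric.sphere (0 : Fin n → ℝ) 1 × Ioi (0 : ℝ), g (y.2.1 • (y.1 : Fin n → ℝ))
        ∂(μ.toSphere.prod (Measure.volumeIoiPow (n - 1))) := by
    have h3 := hmp.lintegral_comp_emb (Homeomorph.measurableEmbedding _)
      (fun y : Metric.sphere (0 : Fin n → ℝ) 1 × Ioi (0 : ℝ) => g (y.2.1 • (y.1 : Fin n → ℝ)))
    rw [← h3]
    refine lintegral_congr fun x => ?_
    congr 1
    have := congrArg Subtype.val ((homeomorphUnitSphereProd (Fin n → ℝ)).symm_apply_apply x)
    rw [← this]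
    rfl
  have hm : Measurable (fun y : Metric.sphere (0 : Fin n → ℝ) 1 × Ioi (0 : ℝ) =>
      g (y.2.1 • (y.1 : Fin n → ℝ))) := by
    refine hg.comp ?_
    exact (measurable_subtype_coe.comp measurable_snd).smul
      (measurable_subtype_coe.comp measurable_fst)
  rw [h1, h2, lintegral_prod _ hm.aemeasurable]
  refine lintegral_congr fun u => ?_
  have hm2 : Measurable (fun r : ℝ => g (r • (u : Fin n → ℝ))) :=
    hg.comp (measurable_id.smul_const _)
  have hm3 : Measurable (fun r : Ioi (0 : ℝ) => ENNReal.ofReal (r.1 ^ (n - 1))) := by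
    fun_prop
  have h4 := lintegral_withDensity_eq_lintegral_mul
    (Measure.comap (Subtype.val : Ioi (0 : ℝ) → ℝ) volume) hm3 (hm2.comp measurable_subtype_coe)
  refine h4.trans ?_
  rw [← lintegral_subtype_comap measurableSet_Ioi
    (fun r : ℝ => g (r • (u : Fin n → ℝ)) * ENNReal.ofReal (r ^ (n - 1)))]
  refine lintegral_congr fun r => ?_
  simp only [Pi.mul_apply, Function.comp_apply]
  rw [mul_comm]

theorem stPolar : StPolar := by
  intro n hn f h hf hh hfh
  rw [polar_eq hn f hf, polar_eq hn h hh]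
  refine lintegral_mono fun u => hfh _ ?_
  have := u.2
  rwa [mem_sphere_zero_iff_norm] at this

end Pool.Agent.Lib.MP_87489e_co.Ord
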