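import Mathlib
import Pool.Agent.Lib.MP_87489e_co.Ord.Stmts
import Pool.Agent.Lib.MP_87489e_co.Segs
import Pool.Agent.Lib.MP_87489e_co.Cross

set_option autoImplicit false

namespace Pool.Agent.Lib.MP_87489e_co.Ord

open MeasureTheory Set Pointwise
open Pool.Agent.Lib.MP_87489e_co

namespace Union

theorem hull_lt_top {n : ℕ} {K : Set (Fin n → ℝ)} (hK : IsCompact K) (p : Fin n → ℝ) :
    volume (convexHull ℝ (K ∪ (p +ᵥ K))) < ⊤ := by
  have h1 : IsCompact (p +ᵥ K) := hK.vadd p
  have h2 : Bornology.IsBounded (convexHull ℝ (K ∪ (p +ᵥ K))) :=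
    isBounded_convexHull.mpr (hK.union h1).isBounded
  exact h2.measure_lt_top

/-- The bound in the direction of the first coordinate. -/
theorem axis {m : ℕ} {K : Set (Fin (m + 1) → ℝ)} (hKc : IsCompact K) (hK : Convex ℝ K)
    {t : ℝ} (ht0 : 0 ≤ t) :
    (volume K).toReal - t * ((volume (convexHull ℝ
      (K ∪ ((Pi.single 0 1 : Fin (m + 1) → ℝ) +ᵥ K)))).toReal - (volume K).toReal) ≤
      (cov K (t • (Pi.single 0 1 : Fin (m + 1) → ℝ))).toReal := by
  set e : Fin (m + 1) → ℝ := Pi.single 0 1 with he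
  have hVtop : volume K ≠ ⊤ := hKc.measure_lt_top.ne
  have hDtop : volume (drp 0 K) ≠ ⊤ := (drp_isCompact 0 hKc).measure_lt_top.ne
  have hHtop : volume (convexHull ℝ (K ∪ (e +ᵥ K))) ≠ ⊤ := (hull_lt_top hKc e).ne
  set V := (volume K).toReal with hV
  set D := (volume (drp 0 K)).toReal with hD
  set H := (volume (convexHull ℝ (K ∪ (e +ᵥ K)))).toReal with hH
  have h1 : V + D ≤ H := by
    have h2 := measure_mono (μ := volume) (seg_subset_hull 0 K)
    rw [volume_seg 0 zero_le_one hKc hK, ENNReal.ofReal_one, one_mul] at h2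
    have h3 := ENNReal.toReal_mono hHtop h2
    rw [ENNReal.toReal_add hVtop hDtop] at h3
    exact h3
  -- the union
  have hsub : K ∪ ((t • e) +ᵥ K) ⊆ seg 0 t K := by
    rintro x (hx | ⟨y, hy, rfl⟩)
    · exact ⟨0, ⟨le_rfl, ht0⟩, by simpa using hx⟩
    · refine ⟨t, ⟨ht0, le_rfl⟩, ?_⟩
      have : (Pi.single 0 t : Fin (m + 1) → ℝ) = t • e := by
        rw [he, ← Pi.single_smul']
        simp
      rw [this]
      simpa using hy
  have hvadd : volume ((t • e) +ᵥ K) = volume K := measure_vadd volume (t • e) K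
  have hcc : IsCompact ((t • e) +ᵥ K) := hKc.vadd (t • e)
  have hui := measure_union_add_inter (μ := volume) K hcc.measurableSet
  rw [hvadd] at hui
  have hU : (volume (K ∪ ((t • e) +ᵥ K))).toReal ≤ V + t * D := by
    have h2 := measure_mono (μ := volume) hsub
    rw [volume_seg 0 ht0 hKc hK] at h2
    have h3 := ENNReal.toReal_mono
      (ENNReal.add_ne_top.mpr ⟨hVtop, ENNReal.mul_ne_top ENNReal.ofReal_ne_top hDtop⟩) h2
    rw [ENNReal.toReal_add hVtop (ENNReal.mul_ne_top ENNReal.ofReal_ne_top hDtop),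
      ENNReal.toReal_mul, ENNReal.toReal_ofReal ht0] at h3
    exact h3
  have hUtop : volume (K ∪ ((t • e) +ᵥ K)) ≠ ⊤ := (hKc.union hcc).measure_lt_top.ne
  have hCtop : volume (K ∩ ((t • e) +ᵥ K)) ≠ ⊤ :=
    ((measure_mono inter_subset_left).trans_lt hKc.measure_lt_top).ne
  have h4 := congrArg ENNReal.toReal hui
  rw [ENNReal.toReal_add hUtop hCtop, ENNReal.toReal_add hVtop hVtop] at h4
  have h5 : (cov K (t • e)).toReal = (volume (K ∩ ((t • e) +ᵥ K))).toReal := rfl
  rw [h5]
  have h6 : t * D ≤ t * (H - V) := mul_le_mul_of_nonneg_left (by linarith) ht0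
  linarith

end Union

/-- Union bound. -/
theorem stUnion : StUnion := by
  intro n K hn hKc hK p t ht0 _
  obtain ⟨m, rfl⟩ : ∃ m, n = m + 1 := ⟨n - 1, by omega⟩
  by_cases hp : p = 0
  · subst hp
    rw [zero_vadd, union_self, hK.convexHull_eq, smul_zero, cov, zero_vadd, inter_self]
    simp
  · obtain ⟨A, hA⟩ : ∃ A : (Fin (m + 1) → ℝ) ≃L[ℝ] (Fin (m + 1) → ℝ), A (Pi.single 0 1) = p := by
      have h0 : (Pi.single 0 1 : Fin (m + 1) → ℝ) ≠ 0 := by simp
      exact SeparatingDual.exists_continuousLinearEquiv_apply_eq h0 hp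
    let L : (Fin (m + 1) → ℝ) →ₗ[ℝ] (Fin (m + 1) → ℝ) := A.toLinearEquiv.toLinearMap
    have hL : ∀ x, L x = A x := fun x => rfl
    have hinj : Function.Injective L := A.injective
    set Kt := A.symm '' K with hKt
    have hKtc : IsCompact Kt := hKc.image A.symm.continuous
    have hKtconv : Convex ℝ Kt := hK.linear_image A.symm.toLinearEquiv.toLinearMap
    have hAK : L '' Kt = K := by
      rw [hKt, image_image]
      have : (fun x => L (A.symm x)) = id := by
        funext x; exact A.apply_symm_apply x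
      rw [this, image_id]
    have himg : ∀ v : Fin (m + 1) → ℝ, L '' (v +ᵥ Kt) = L v +ᵥ K := by
      intro v
      conv_rhs => rw [← hAK]
      ext q
      constructor
      · rintro ⟨_, ⟨f, hf, rfl⟩, rfl⟩
        exact ⟨L f, ⟨f, hf, rfl⟩, by simp⟩
      · rintro ⟨_, ⟨f, hf, rfl⟩, rfl⟩
        exact ⟨v + f, ⟨f, hf, rfl⟩, by simp⟩
    have hLe : L (Pi.single 0 1) = p := hA
    have hhull : L '' (convexHull ℝ (Kt ∪ ((Pi.single 0 1 : Fin (m + 1) → ℝ) +ᵥ Kt))) =
        convexHull ℝ (K ∪ (p +ᵥ K)) := by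
      rw [LinearMap.image_convexHull, image_union, hAK, himg, hLe]
    have hcov : L '' (Kt ∩ ((t • (Pi.single 0 1 : Fin (m + 1) → ℝ)) +ᵥ Kt)) =
        K ∩ ((t • p) +ᵥ K) := by
      rw [image_inter hinj, hAK, himg, map_smul, hLe]
    have hmain := Union.axis hKtc hKtconv ht0
    have hd0 : 0 ≤ |LinearMap.det L| := abs_nonneg _
    have e1 : (volume K).toReal = |LinearMap.det L| * (volume Kt).toReal := by
      rw [← hAK, Measure.addHaar_image_linearMap, ENNReal.toReal_mul, ENNReal.toReal_ofReal hd0]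
    have e2 : (volume (convexHull ℝ (K ∪ (p +ᵥ K)))).toReal = |LinearMap.det L| *
        (volume (convexHull ℝ (Kt ∪ ((Pi.single 0 1 : Fin (m + 1) → ℝ) +ᵥ Kt)))).toReal := by
      rw [← hhull, Measure.addHaar_image_linearMap, ENNReal.toReal_mul,
        ENNReal.toReal_ofReal hd0]
    have e3 : (cov K (t • p)).toReal = |LinearMap.det L| *
        (cov Kt (t • (Pi.single 0 1 : Fin (m + 1) → ℝ))).toReal := by
      rw [cov, ← hcov, Measure.addHaar_image_linearMap, ENNReal.toReal_mul,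
        ENNReal.toReal_ofReal hd0, cov]
    rw [e1, e2, e3]
    have := mul_le_mul_of_nonneg_left hmain hd0
    linarith

end Pool.Agent.Lib.MP_87489e_co.Ord
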