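import Pool.Agent.Lib.MP_87489e_co.Ord.Stmts

set_option autoImplicit false

namespace Pool.Agent.Lib.MP_87489e_co.Ord

open MeasureTheory Set Pointwise
open Pool.Agent.Lib.MP_87489e_co

theorem simplexCov_max {n : ℕ} (q : Fin n → ℝ)
    (h : ∀ r : ℝ, 1 < r → r • q ∉ Tn n - Tn n) :
    1 ≤ max (∑ i, max (q i) 0) (∑ i, max (-q i) 0) := by
  by_contra hc
  push Not at hc
  set P := ∑ i, max (q i) 0 with hP
  set M := ∑ i, max (-q i) 0 with hM
  set m := max P M with hm
  have hP0 : 0 ≤ P := Finset.sum_nonneg fun i _ => le_max_right _ _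
  have hm0 : 0 ≤ m := le_trans hP0 (le_max_left _ _)
  have hr : 1 < 2 / (1 + m) := by
    rw [lt_div_iff₀ (by linarith)]; linarith
  refine h _ hr ?_
  have hr0 : 0 ≤ 2 / (1 + m) := by positivity
  have hrm : 2 / (1 + m) * m ≤ 1 := by
    rw [div_mul_eq_mul_div, div_le_one (by linarith)]; linarith
  refine Set.mem_sub.2 ⟨fun i => 2 / (1 + m) * max (q i) 0, ⟨fun i => ?_, ?_⟩,
    fun i => 2 / (1 + m) * max (-q i) 0, ⟨fun i => ?_, ?_⟩, ?_⟩
  · exact mul_nonneg hr0 (le_max_right _ _)
  · rw [← Finset.mul_sum, ← hP]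
    exact le_trans (mul_le_mul_of_nonneg_left (le_max_left _ _) hr0) hrm
  · exact mul_nonneg hr0 (le_max_right _ _)
  · rw [← Finset.mul_sum, ← hM]
    exact le_trans (mul_le_mul_of_nonneg_left (le_max_right _ _) hr0) hrm
  · funext i
    simp only [Pi.sub_apply, Pi.smul_apply, smul_eq_mul, ← mul_sub]
    congr 1
    rcases le_total (q i) 0 with h0 | h0
    · rw [max_eq_right h0, max_eq_left (by linarith)]; ring
    · rw [max_eq_left h0, max_eq_right (by linarith)]; ring

theorem simplexCov_mem {n : ℕ} {s : ℝ} (hs : 0 ≤ s) {y : Fin n → ℝ} (h0 : ∀ i, 0 ≤ y i)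
    (h1 : ∑ i, y i ≤ s) : y ∈ s • Tn n := by
  rcases hs.eq_or_lt with rfl | hs'
  · have hy : y = 0 := by
      funext i
      have := Finset.single_le_sum (fun j _ => h0 j) (Finset.mem_univ i)
      exact le_antisymm (le_trans this h1) (h0 i)
    rw [hy]
    exact ⟨0, ⟨fun i => le_rfl, by simp⟩, by simp⟩
  · refine ⟨s⁻¹ • y, ⟨fun i => ?_, ?_⟩, ?_⟩
    · exact mul_nonneg (inv_nonneg.2 hs) (h0 i)
    · simp only [Pi.smul_apply, smul_eq_mul, ← Finset.mul_sum]
      rw [inv_mul_le_iff₀ hs']; linarith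
    · simp only
      rw [smul_smul, mul_inv_cancel₀ hs'.ne', one_smul]

theorem stSimplexCov : StSimplexCov := by
  intro n q _ t ht0 ht1 h
  have hmax := simplexCov_max q h
  set P := ∑ i, max (q i) 0 with hP
  set M := ∑ i, max (-q i) 0 with hM
  have hPM : ∑ i, q i = P - M := by
    rw [hP, hM, ← Finset.sum_sub_distrib]
    refine Finset.sum_congr rfl fun i _ => ?_
    rcases le_total (q i) 0 with h0 | h0
    · rw [max_eq_right h0, max_eq_left (by linarith)]; ring
    · rw [max_eq_left h0, max_eq_right (by linarith)]; ring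
  have hsub : Tn n ∩ ((t • q) +ᵥ Tn n) ⊆ (fun i => t * max (q i) 0) +ᵥ ((1 - t) • Tn n) := by
    rintro x ⟨⟨hx0, hx1⟩, z, ⟨hz0, hz1⟩, rfl⟩
    simp only [vadd_eq_add, Pi.add_apply, Pi.smul_apply, smul_eq_mul] at hx0 hx1
    refine Set.mem_vadd_set.2 ⟨fun i => t * q i + z i - t * max (q i) 0, ?_, ?_⟩
    · refine simplexCov_mem (by linarith) (fun i => ?_) ?_
      · have h1 := hx0 i
        have h2 := hz0 i
        rcases le_total (q i) 0 with h0 | h0
        · rw [max_eq_right h0]; linarith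
        · rw [max_eq_left h0]; linarith
      · rw [Finset.sum_sub_distrib, ← Finset.mul_sum, ← hP]
        have h3 : ∑ i, (t * q i + z i) = t * (P - M) + ∑ i, z i := by
          rw [Finset.sum_add_distrib, ← Finset.mul_sum, hPM]
        rcases le_max_iff.1 hmax with h4 | h4
        · nlinarith
        · rw [h3]; nlinarith
    · funext i
      simp only [vadd_eq_add, Pi.add_apply, Pi.smul_apply, smul_eq_mul]
      ring
  unfold cov
  refine (measure_mono hsub).trans ?_
  rw [measure_vadd, Measure.addHaar_smul]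
  simp only [Module.finrank_fintype_fun_eq_card, Fintype.card_fin]
  rw [abs_of_nonneg (pow_nonneg (by linarith) _)]

end Pool.Agent.Lib.MP_87489e_co.Ord
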